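import Mathlib

namespace Pool.Agent.Lib.MP_456481_pr

open Finset

/-- `g x = cos² (π x)`. -/
noncomputable def g (x : ℝ) : ℝ := Real.cos (Real.pi * x) ^ 2

theorem g_nonneg (x : ℝ) : 0 ≤ g x := sq_nonneg _

theorem g_le_one (x : ℝ) : g x ≤ 1 := Real.cos_sq_le_one _

theorem g_sub_int (x : ℝ) (n : ℤ) : g (x - n) = g x := by
  unfold g
  have h : Real.pi * (x - n) = Real.pi * x - n * Real.pi := by ring
  rw [h, Real.cos_sub_int_mul_pi, mul_pow]
  have : (((-1 : ℝ)) ^ n) ^ 2 = 1 := by
    rw [← zpow_natCast, ← zpow_mul, mul_comm, zpow_mul]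
    norm_num
  rw [this, one_mul]

/-- `F a j x = ∏_{i<j} cos² (π a^i x)`. -/
noncomputable def F (a : ℕ) (j : ℕ) (x : ℝ) : ℝ :=
  ∏ i ∈ Finset.range j, g ((a : ℝ) ^ i * x)

theorem F_nonneg (a j : ℕ) (x : ℝ) : 0 ≤ F a j x :=
  Finset.prod_nonneg fun _ _ => g_nonneg _

theorem F_le_one (a j : ℕ) (x : ℝ) : F a j x ≤ 1 :=
  Finset.prod_le_one (fun _ _ => g_nonneg _) fun _ _ => g_le_one _

@[simp] theorem F_zero (a : ℕ) (x : ℝ) : F a 0 x = 1 := by simp [F]

theorem F_succ' (a j : ℕ) (x : ℝ) : F a (j + 1) x = F a j x * g ((a : ℝ) ^ j * x) := by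
  unfold F
  rw [Finset.prod_range_succ]

theorem F_succ (a j : ℕ) (x : ℝ) : F a (j + 1) x = g x * F a j (a * x) := by
  unfold F
  rw [Finset.prod_range_succ']
  simp only [pow_zero, one_mul]
  rw [mul_comm]
  congr 1
  apply Finset.prod_congr rfl
  intro i _
  congr 1
  ring

theorem F_sub_int (a j : ℕ) (x : ℝ) (n : ℤ) : F a j (x - n) = F a j x := by
  unfold F
  apply Finset.prod_congr rfl
  intro i _
  have : (a : ℝ) ^ i * (x - n) = (a : ℝ) ^ i * x - ((a ^ i * n : ℤ) : ℝ) := by
    push_cast; ring
  rw [this, g_sub_int]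

theorem F_add (a j l : ℕ) (x : ℝ) : F a (j + l) x = F a j x * F a l ((a : ℝ) ^ j * x) := by
  unfold F
  rw [Finset.prod_range_add]
  congr 1
  apply Finset.prod_congr rfl
  intro i _
  congr 1
  ring

/-- `ρ = cos² (π / (2a)) < 1`. -/
noncomputable def rho (a : ℕ) : ℝ := Real.cos (Real.pi * (1 / (2 * a))) ^ 2

theorem rho_nonneg (a : ℕ) : 0 ≤ rho a := sq_nonneg _

theorem rho_lt_one (a : ℕ) (ha : 1 ≤ a) : rho a < 1 := by
  unfold rho
  have h1 : (1 : ℝ) ≤ a := by exact_mod_cast ha
  have h2 : 0 < Real.pi * (1 / (2 * a)) := by have := Real.pi_pos; positivity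
  have h3 : Real.pi * (1 / (2 * (a : ℝ))) < Real.pi := by
    have h4 : (1 / (2 * (a : ℝ))) < 1 := by
      rw [div_lt_one (by positivity)]
      linarith
    have := Real.pi_pos
    nlinarith
  have h5 : 0 < Real.sin (Real.pi * (1 / (2 * a))) := Real.sin_pos_of_pos_of_lt_pi h2 h3
  have h6 := Real.sin_sq_add_cos_sq (Real.pi * (1 / (2 * (a : ℝ))))
  nlinarith [sq_pos_of_pos h5]

theorem g_le_rho (a : ℕ) (ha : 1 ≤ a) (x : ℝ) (h1 : 1 / (2 * (a : ℝ)) ≤ |x|)
    (h2 : |x| ≤ 1 / 2) : g x ≤ rho a := by
  unfold g rho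
  have hpi := Real.pi_pos
  have ha' : (1 : ℝ) ≤ a := by exact_mod_cast ha
  have h3 : Real.cos (Real.pi * x) = Real.cos (Real.pi * |x|) := by
    rw [← Real.cos_abs, abs_mul, abs_of_pos hpi]
  rw [h3]
  have h4 : 0 ≤ Real.cos (Real.pi * |x|) := by
    apply Real.cos_nonneg_of_mem_Icc
    constructor
    · have := abs_nonneg x
      nlinarith
    · nlinarith
  apply pow_le_pow_left₀ h4
  apply Real.cos_le_cos_of_nonneg_of_le_pi
  · positivity
  · nlinarith
  · exact mul_le_mul_of_nonneg_left h1 hpi.le

theorem abs_round_le (x : ℝ) (K : ℕ) (hx : |x| ≤ K / 2) : |round x| ≤ ((K + 1) / 2 : ℕ) := by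
  have h1 := abs_sub_round x
  have h2 : |(round x : ℝ)| ≤ (K + 1) / 2 := by
    calc |(round x : ℝ)| = |x - (x - round x)| := by ring_nf
      _ ≤ |x| + |x - round x| := abs_sub _ _
      _ ≤ K / 2 + 1 / 2 := by linarith
      _ = _ := by ring
  have h3 : 2 * |round x| ≤ (K + 1 : ℕ) := by
    have : 2 * |(round x : ℝ)| ≤ (K + 1 : ℝ) := by linarith
    exact_mod_cast this
  have h4 : |round x| = (((round x).natAbs : ℕ) : ℤ) := by simp
  rw [h4] at h3 ⊢
  have h5 : 2 * (round x).natAbs ≤ K + 1 := by exact_mod_cast h3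
  have h6 : (round x).natAbs ≤ (K + 1) / 2 := by omega
  exact_mod_cast h6

/-- Moment bound over well separated points. -/
theorem sum_F_pow_le (a : ℕ) (ha : 1 ≤ a) (t : ℕ) (j : ℕ) :
    ∀ X : Finset ℝ, (∀ x ∈ X, |x| ≤ 1 / 2) →
    (∀ x ∈ X, ∀ y ∈ X, x ≠ y → 1 < (a : ℝ) ^ j * |x - y|) →
    ∑ x ∈ X, F a j x ^ t ≤ (1 + (a + 1) * rho a ^ t) ^ j := by
  have ha' : (1 : ℝ) ≤ a := by exact_mod_cast ha
  have hr := rho_nonneg a
  induction j with
  | zero =>
    intro X hX hsep
    have hcard : X.card ≤ 1 := by
      rw [Finset.card_le_one]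
      intro x hx y hy
      by_contra hne
      have h1 := hsep x hx y hy hne
      have h2 := hX x hx
      have h3 := hX y hy
      have h4 : |x - y| ≤ |x| + |y| := abs_sub _ _
      simp only [pow_zero, one_mul] at h1
      linarith
    simp only [F_zero, one_pow, pow_zero, Finset.sum_const, nsmul_eq_mul, mul_one]
    exact_mod_cast hcard
  | succ j ih =>
    intro X hX hsep
    set K : ℕ := (a + 1) / 2 with hK
    set I : Finset ℤ := Finset.Icc (-(K : ℤ)) K with hI
    have hmaps : ∀ x ∈ X, round ((a : ℝ) * x) ∈ I := by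
      intro x hx
      have h1 : |(a : ℝ) * x| ≤ (a : ℝ) / 2 := by
        rw [abs_mul, abs_of_pos (by linarith)]
        have := hX x hx
        nlinarith
      have h2 := abs_round_le _ a h1
      rw [hI, Finset.mem_Icc]
      exact abs_le.mp h2
    rw [← Finset.sum_fiberwise_of_maps_to hmaps]
    set M : ℝ := 1 + (a + 1) * rho a ^ t with hM
    have hM0 : 0 ≤ M := by positivity
    -- each fibre
    have hfib : ∀ c ∈ I, ∑ x ∈ X.filter (fun x => round ((a : ℝ) * x) = c), F a (j + 1) x ^ t ≤
        (if c = 0 then 1 else rho a ^ t) * M ^ j := by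
      intro c _
      set Xc := X.filter (fun x => round ((a : ℝ) * x) = c) with hXc
      have hinj : Set.InjOn (fun x : ℝ => (a : ℝ) * x - c) (Xc : Set ℝ) := by
        intro x _ y _ hxy
        simp only at hxy
        have : (a : ℝ) * x = a * y := by linarith
        exact mul_left_cancel₀ (by positivity) this
      have h1 : ∀ x ∈ Xc, F a (j + 1) x ^ t ≤
          (if c = 0 then 1 else rho a ^ t) * F a j ((a : ℝ) * x - c) ^ t := by
        intro x hx
        rw [hXc, Finset.mem_filter] at hx
        rw [F_succ, mul_pow, F_sub_int]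
        apply mul_le_mul_of_nonneg_right _ (pow_nonneg (F_nonneg _ _ _) _)
        split_ifs with hc
        · exact pow_le_one₀ (g_nonneg _) (g_le_one _)
        · apply pow_le_pow_left₀ (g_nonneg _)
          apply g_le_rho a ha x _ (hX x hx.1)
          by_contra hlt
          push Not at hlt
          apply hc
          rw [← hx.2, round_eq_zero_iff]
          have h5 : |(a : ℝ) * x| < 1 / 2 := by
            rw [abs_mul, abs_of_pos (by linarith)]
            rw [lt_div_iff₀ (by positivity)] at hlt
            linarith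
          rw [abs_lt] at h5
          constructor
          · linarith [h5.1]
          · exact h5.2
      calc ∑ x ∈ Xc, F a (j + 1) x ^ t
          ≤ ∑ x ∈ Xc, (if c = 0 then 1 else rho a ^ t) * F a j ((a : ℝ) * x - c) ^ t :=
            Finset.sum_le_sum h1
        _ = (if c = 0 then 1 else rho a ^ t) *
            ∑ y ∈ Xc.image (fun x : ℝ => (a : ℝ) * x - c), F a j y ^ t := by
            rw [Finset.sum_image hinj, Finset.mul_sum]
        _ ≤ (if c = 0 then 1 else rho a ^ t) * M ^ j := by
            apply mul_le_mul_of_nonneg_left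
            · apply ih
              · intro y hy
                rw [Finset.mem_image] at hy
                obtain ⟨x, hx, rfl⟩ := hy
                rw [hXc, Finset.mem_filter] at hx
                rw [← hx.2]
                exact abs_sub_round _
              · intro y hy z hz hyz
                rw [Finset.mem_image] at hy hz
                obtain ⟨x, hx, rfl⟩ := hy
                obtain ⟨x', hx', rfl⟩ := hz
                rw [hXc, Finset.mem_filter] at hx hx'
                have hne : x ≠ x' := by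
                  intro h; apply hyz; rw [h]
                have h6 := hsep x hx.1 x' hx'.1 hne
                have h7 : (a : ℝ) * x - c - (a * x' - c) = a * (x - x') := by ring
                rw [h7, abs_mul, abs_of_pos (by linarith)]
                rw [pow_succ] at h6
                linarith
            · split_ifs
              · norm_num
              · positivity
    have hcardI : (I.card : ℝ) ≤ a + 2 := by
      have h8 : I.card = 2 * K + 1 := by
        rw [hI, Int.card_Icc]
        omega
      have h9 : 2 * K + 1 ≤ a + 2 := by omega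
      rw [h8]
      exact_mod_cast h9
    calc ∑ c ∈ I, ∑ x ∈ X.filter (fun x => round ((a : ℝ) * x) = c), F a (j + 1) x ^ t
        ≤ ∑ c ∈ I, (if c = 0 then 1 else rho a ^ t) * M ^ j := Finset.sum_le_sum hfib
      _ = (∑ c ∈ I, (if c = 0 then (1 : ℝ) else rho a ^ t)) * M ^ j := by
          rw [Finset.sum_mul]
      _ ≤ M * M ^ j := by
          apply mul_le_mul_of_nonneg_right _ (pow_nonneg hM0 _)
          have h0 : (0 : ℤ) ∈ I := by
            rw [hI, Finset.mem_Icc]; constructor <;> simp
          rw [← Finset.add_sum_erase _ _ h0]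
          simp only [if_true]
          have h10 : ∑ c ∈ I.erase 0, (if c = 0 then (1 : ℝ) else rho a ^ t) =
              (I.erase 0).card * rho a ^ t := by
            rw [Finset.sum_congr rfl (g := fun _ => rho a ^ t), Finset.sum_const, nsmul_eq_mul]
            intro c hc
            rw [if_neg (Finset.ne_of_mem_erase hc)]
          rw [h10, Finset.card_erase_of_mem h0]
          have h11 : ((I.card - 1 : ℕ) : ℝ) ≤ a + 1 := by
            have h12 : 1 ≤ I.card := Finset.card_pos.mpr ⟨0, h0⟩
            rw [Nat.cast_sub h12]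
            push_cast
            linarith
          have h13 : 0 ≤ rho a ^ t := pow_nonneg hr _
          nlinarith
      _ = M ^ (j + 1) := by ring

/-- Either some factor is small or the distance to the nearest integer grows geometrically. -/
theorem F_le_rho_or (a : ℕ) (ha : 1 ≤ a) (x : ℝ) (J : ℕ) :
    F a J x ≤ rho a ∨
      |(a : ℝ) ^ J * x - round ((a : ℝ) ^ J * x)| = (a : ℝ) ^ J * |x - round x| := by
  have ha' : (1 : ℝ) ≤ a := by exact_mod_cast ha
  induction J with
  | zero => right; simp
  | succ J ih =>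
    rcases ih with h | h
    · left
      rw [F_succ']
      calc F a J x * g ((a : ℝ) ^ J * x) ≤ rho a * 1 :=
            mul_le_mul h (g_le_one _) (g_nonneg _) (rho_nonneg _)
        _ = rho a := mul_one _
    · set y : ℝ := (a : ℝ) ^ J * x with hy
      by_cases hc : 1 / (2 * (a : ℝ)) ≤ |y - round y|
      · left
        rw [F_succ']
        have h1 : g y ≤ rho a := by
          rw [← g_sub_int y (round y)]
          exact g_le_rho a ha _ hc (abs_sub_round _)
        calc F a J x * g y ≤ 1 * rho a :=
              mul_le_mul (F_le_one _ _ _) h1 (g_nonneg _) (by norm_num)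
          _ = rho a := one_mul _
      · right
        push Not at hc
        have h2 : (a : ℝ) ^ (J + 1) * x = a * y := by rw [hy]; ring
        rw [h2]
        have h3 : |(a : ℝ) * y - ((a * round y : ℤ) : ℝ)| < 1 / 2 := by
          have : (a : ℝ) * y - ((a * round y : ℤ) : ℝ) = a * (y - round y) := by
            push_cast; ring
          rw [this, abs_mul, abs_of_pos (by linarith)]
          rw [lt_div_iff₀ (by positivity)] at hc
          linarith
        have h4 : round ((a : ℝ) * y) = a * round y := by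
          have h5 : (a : ℝ) * y = ((a : ℝ) * y - ((a * round y : ℤ) : ℝ)) +
              ((a * round y : ℤ) : ℝ) := by ring
          rw [h5, round_add_intCast]
          have h6 : round ((a : ℝ) * y - ((a * round y : ℤ) : ℝ)) = 0 := by
            rw [round_eq_zero_iff]
            rw [abs_lt] at h3
            exact ⟨by linarith [h3.1], h3.2⟩
          rw [h6, zero_add]
        rw [h4]
        have h7 : (a : ℝ) * y - ((a * round y : ℤ) : ℝ) = a * (y - round y) := by
          push_cast; ring
        rw [h7, abs_mul, abs_of_pos (by linarith), h]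
        ring

/-- Non-integral fractions with small denominator. -/
theorem F_small_den (a : ℕ) (ha : 4 ≤ a) (J : ℕ) (k : ℤ) (r : ℕ) (hr : 0 < r)
    (hrJ : r ≤ 2 ^ J) (hk : ¬ (r : ℤ) ∣ k) : F a J ((k : ℝ) / r) ≤ rho a := by
  have ha' : (4 : ℝ) ≤ a := by exact_mod_cast ha
  have hr' : (0 : ℝ) < r := by exact_mod_cast hr
  rcases F_le_rho_or a (by omega) ((k : ℝ) / r) J with h | h
  · exact h
  · exfalso
    have h1 := abs_sub_round ((a : ℝ) ^ J * ((k : ℝ) / r))
    rw [h] at h1
    have h2 : 1 / (r : ℝ) ≤ |(k : ℝ) / r - round ((k : ℝ) / r)| := by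
      have h3 : (k : ℝ) / r - round ((k : ℝ) / r) =
          ((k - r * round ((k : ℝ) / r) : ℤ) : ℝ) / r := by
        push_cast
        field_simp
      rw [h3, abs_div, abs_of_pos hr']
      apply div_le_div_of_nonneg_right _ hr'.le
      have h4 : (k - r * round ((k : ℝ) / r) : ℤ) ≠ 0 := by
        intro h5
        apply hk
        exact ⟨_, by linarith⟩
      have h6 := Int.one_le_abs h4
      exact_mod_cast h6
    have h3 : (r : ℝ) ≤ 2 ^ J := by exact_mod_cast hrJ
    have h4 : (4 : ℝ) ^ J ≤ (a : ℝ) ^ J := pow_le_pow_left₀ (by norm_num) ha' J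
    have h5 : (1 : ℝ) ≤ 2 ^ J := one_le_pow₀ (by norm_num)
    have h6 : (2 : ℝ) ^ J * 2 ^ J = 4 ^ J := by
      rw [← mul_pow]; norm_num
    have h7 : (1 : ℝ) ≤ (a : ℝ) ^ J * (1 / (r : ℝ)) := by
      rw [mul_one_div, le_div_iff₀ hr']
      nlinarith
    have h8 : (a : ℝ) ^ J * (1 / (r : ℝ)) ≤
        (a : ℝ) ^ J * |(k : ℝ) / r - round ((k : ℝ) / r)| :=
      mul_le_mul_of_nonneg_left h2 (by positivity)
    linarith

end Pool.Agent.Lib.MP_456481_pr
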