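import Mathlib
import Pool.Agent.Lib.MP_456481_pr.Trig

namespace Pool.Agent.Lib.MP_456481_pr

open Finset

/-- Number of pairs of subsets with congruent weights modulo `q`. -/
def Col {ι : Type*} (S : Finset ι) (w : ι → ℕ) (q : ℕ) : ℕ :=
  ((S.powerset ×ˢ S.powerset).filter
    (fun p => (∑ i ∈ p.1, w i) % q = (∑ i ∈ p.2, w i) % q)).card

theorem four_g (q : ℕ) (m k : ℕ) :
    ((4 * g ((m : ℝ) * ((k : ℝ) / q)) : ℝ) : ℂ) =
      (1 + (Complex.exp (2 * Real.pi * Complex.I / q) ^ (m : ℤ)) ^ k) *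
      (1 + (Complex.exp (2 * Real.pi * Complex.I / q) ^ (-(m : ℤ))) ^ k) := by
  set y : ℝ := (m : ℝ) * ((k : ℝ) / q) with hy
  have h1 : (Complex.exp (2 * Real.pi * Complex.I / q) ^ (m : ℤ)) ^ k =
      Complex.exp (2 * (Real.pi * y : ℝ) * Complex.I) := by
    rw [← Complex.exp_int_mul, ← Complex.exp_nat_mul]
    congr 1
    rw [hy]
    push_cast
    ring
  have h2 : (Complex.exp (2 * Real.pi * Complex.I / q) ^ (-(m : ℤ))) ^ k =
      Complex.exp (-(2 * (Real.pi * y : ℝ) * Complex.I)) := by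
    rw [← Complex.exp_int_mul, ← Complex.exp_nat_mul]
    congr 1
    rw [hy]
    push_cast
    ring
  rw [h1, h2]
  set z : ℝ := Real.pi * y with hz
  have h3 : ((4 * g y : ℝ) : ℂ) = 4 * Complex.cos (z : ℂ) ^ 2 := by
    unfold g
    rw [← hz]
    push_cast
    ring
  rw [h3, Complex.cos]
  have h4 : Complex.exp (2 * (z : ℂ) * Complex.I) = Complex.exp (z * Complex.I) ^ 2 := by
    rw [← Complex.exp_nat_mul]; congr 1; push_cast; ring
  have h5 : Complex.exp (-(2 * (z : ℂ) * Complex.I)) = Complex.exp (-z * Complex.I) ^ 2 := by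
    rw [← Complex.exp_nat_mul]; congr 1; push_cast; ring
  have h6 : Complex.exp (z * Complex.I) * Complex.exp (-z * Complex.I) = 1 := by
    rw [← Complex.exp_add]
    simp
  rw [h4, h5]
  linear_combination (2 - (Complex.exp (z * Complex.I) * Complex.exp (-z * Complex.I) + 1)) * h6

theorem geom_root (q : ℕ) (hq : 0 < q) (m : ℤ) :
    ∑ k ∈ Finset.range q, (Complex.exp (2 * Real.pi * Complex.I / q) ^ m) ^ k =
      if (q : ℤ) ∣ m then (q : ℂ) else 0 := by
  have hprim := Complex.isPrimitiveRoot_exp q hq.ne'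
  split_ifs with h
  · rw [(hprim.zpow_eq_one_iff_dvd m).mpr h]
    simp
  · have h1 : Complex.exp (2 * Real.pi * Complex.I / q) ^ m ≠ 1 := by
      intro h2
      exact h ((hprim.zpow_eq_one_iff_dvd m).mp h2)
    rw [geom_sum_eq h1]
    have h3 : (Complex.exp (2 * Real.pi * Complex.I / q) ^ m) ^ q = 1 := by
      rw [← zpow_natCast, zpow_comm, zpow_natCast, hprim.pow_eq_one, one_zpow]
    rw [h3]
    simp

theorem parseval {ι : Type*} (S : Finset ι) (w : ι → ℕ) (q : ℕ) (hq : 0 < q) :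
    4 ^ S.card * ∑ k ∈ Finset.range q, ∏ i ∈ S, g ((w i : ℝ) * ((k : ℝ) / q)) =
      q * (Col S w q : ℝ) := by
  have hC : ((4 ^ S.card * ∑ k ∈ Finset.range q, ∏ i ∈ S, g ((w i : ℝ) * ((k : ℝ) / q)) : ℝ) : ℂ) =
      ((q * (Col S w q : ℝ) : ℝ) : ℂ) := by
    set ζ := Complex.exp (2 * Real.pi * Complex.I / q) with hζ
    have hζ0 : ζ ≠ 0 := Complex.exp_ne_zero _
    have h1 : ∀ k ∈ Finset.range q,
        (((4 : ℝ) ^ S.card * ∏ i ∈ S, g ((w i : ℝ) * ((k : ℝ) / q)) : ℝ) : ℂ) =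
        ∑ p ∈ S.powerset ×ˢ S.powerset,
          (ζ ^ (((∑ i ∈ p.1, w i : ℕ) : ℤ) - ((∑ i ∈ p.2, w i : ℕ) : ℤ))) ^ k := by
      intro k _
      have h2 : (4 : ℝ) ^ S.card * ∏ i ∈ S, g ((w i : ℝ) * ((k : ℝ) / q)) =
          ∏ i ∈ S, (4 * g ((w i : ℝ) * ((k : ℝ) / q))) := by
        rw [Finset.prod_mul_distrib, Finset.prod_const]
      rw [h2, Complex.ofReal_prod, Finset.prod_congr rfl (fun i _ => four_g q (w i) k),
        Finset.prod_mul_distrib, Finset.prod_one_add, Finset.prod_one_add,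
        Finset.sum_mul_sum, ← Finset.sum_product']
      apply Finset.sum_congr rfl
      rintro ⟨T, T'⟩ _
      simp only
      rw [Finset.prod_pow, Finset.prod_pow, ← mul_pow]
      congr 1
      rw [← hζ]
      have h3 : ∏ i ∈ T, ζ ^ (w i : ℤ) = ζ ^ ((∑ i ∈ T, w i : ℕ) : ℤ) := by
        simp only [zpow_natCast]
        rw [Finset.prod_pow_eq_pow_sum]
      have h4 : ∏ i ∈ T', ζ ^ (-(w i : ℤ)) = ζ ^ (-((∑ i ∈ T', w i : ℕ) : ℤ)) := by
        simp only [zpow_neg, zpow_natCast]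
        rw [Finset.prod_inv_distrib, Finset.prod_pow_eq_pow_sum]
      rw [h3, h4, ← zpow_add₀ hζ0, sub_eq_add_neg]
    rw [Finset.mul_sum, Complex.ofReal_sum, Finset.sum_congr rfl h1, Finset.sum_comm]
    have h5 : ∀ p ∈ S.powerset ×ˢ S.powerset,
        ∑ k ∈ Finset.range q,
          (ζ ^ (((∑ i ∈ p.1, w i : ℕ) : ℤ) - ((∑ i ∈ p.2, w i : ℕ) : ℤ))) ^ k =
        if (∑ i ∈ p.1, w i) % q = (∑ i ∈ p.2, w i) % q then (q : ℂ) else 0 := by
      intro p _
      rw [hζ, geom_root q hq]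
      congr 1
      rw [eq_iff_iff]
      constructor
      · intro h
        have h6 : ((∑ i ∈ p.2, w i : ℕ) : ℤ) ≡ ((∑ i ∈ p.1, w i : ℕ) : ℤ) [ZMOD q] :=
          Int.modEq_iff_dvd.mpr h
        have h7 := (Int.natCast_modEq_iff.mp h6)
        exact h7.symm
      · intro h
        have h6 : (∑ i ∈ p.2, w i) ≡ (∑ i ∈ p.1, w i) [MOD q] := h.symm
        exact Int.modEq_iff_dvd.mp (Int.natCast_modEq_iff.mpr h6)
    rw [Finset.sum_congr rfl h5, ← Finset.sum_filter, Finset.sum_const, nsmul_eq_mul]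
    unfold Col
    push_cast
    ring
  exact_mod_cast hC

end Pool.Agent.Lib.MP_456481_pr
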