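import Mathlib
import Pool.Agent.Lib.MP_456481_pr.Fourier

namespace Pool.Agent.Lib.MP_456481_pr

open Finset

theorem natAbs_sub_ne_zero {s t : ℕ} (h : s ≠ t) : ((s : ℤ) - t).natAbs ≠ 0 := by omega

theorem natAbs_sub_le {s t M : ℕ} (hs : s < M) (ht : t < M) : ((s : ℤ) - t).natAbs ≤ M := by
  omega

theorem card_mod_eq_le (s t x : ℕ) (hst : s ≠ t) :
    ((Finset.Ioc 0 x).filter (fun q => s % q = t % q)).card ≤
      (((s : ℤ) - t).natAbs.divisors).card := by
  apply Finset.card_le_card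
  intro q hq
  rw [Finset.mem_filter] at hq
  rw [Nat.mem_divisors]
  constructor
  · have h1 : t ≡ s [MOD q] := hq.2.symm
    have h2 := Int.modEq_iff_dvd.mp (Int.natCast_modEq_iff.mpr h1)
    exact Int.natCast_dvd.mp h2
  · intro h
    apply hst
    have := Int.natAbs_eq_zero.mp h
    omega

theorem sum_Col_le (a : ℕ) (ha : 2 ≤ a) (S : Finset ℕ) (N : ℕ) (hS : S ⊆ Finset.range N)
    (x : ℕ) (D : ℝ) (hD0 : 0 ≤ D)
    (hD : ∀ m : ℕ, m ≠ 0 → m ≤ a ^ N → (m.divisors.card : ℝ) ≤ D) :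
    ∑ q ∈ Finset.Ioc 0 x, (Col S (fun i => a ^ i) q : ℝ) ≤
      2 ^ S.card * x + 4 ^ S.card * D := by
  classical
  have h1 : ∀ q ∈ Finset.Ioc 0 x, (Col S (fun i => a ^ i) q : ℝ) =
      ∑ p ∈ S.powerset ×ˢ S.powerset,
        if (∑ i ∈ p.1, a ^ i) % q = (∑ i ∈ p.2, a ^ i) % q then (1 : ℝ) else 0 := by
    intro q _
    unfold Col
    rw [Finset.card_filter]
    push_cast
    rfl
  rw [Finset.sum_congr rfl h1, Finset.sum_comm]
  have h2 : ∀ p ∈ S.powerset ×ˢ S.powerset,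
      ∑ q ∈ Finset.Ioc 0 x,
        (if (∑ i ∈ p.1, a ^ i) % q = (∑ i ∈ p.2, a ^ i) % q then (1 : ℝ) else 0) ≤
      (if p.1 = p.2 then (x : ℝ) else 0) + D := by
    intro p hp
    rw [Finset.mem_product, Finset.mem_powerset, Finset.mem_powerset] at hp
    by_cases h : p.1 = p.2
    · rw [if_pos h, h]
      simp only [if_true, Finset.sum_const, Nat.card_Ioc, Nat.sub_zero, nsmul_eq_mul, mul_one]
      linarith
    · rw [if_neg h, zero_add]
      have hne : (∑ i ∈ p.1, a ^ i) ≠ (∑ i ∈ p.2, a ^ i) := by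
        intro h3
        exact h (Finset.geomSum_injective ha h3)
      have h4 := card_mod_eq_le _ _ x hne
      have h5 : ∑ q ∈ Finset.Ioc 0 x,
        (if (∑ i ∈ p.1, a ^ i) % q = (∑ i ∈ p.2, a ^ i) % q then (1 : ℝ) else 0) =
        (((Finset.Ioc 0 x).filter (fun q => (∑ i ∈ p.1, a ^ i) % q =
          (∑ i ∈ p.2, a ^ i) % q)).card : ℝ) := by
        rw [Finset.card_filter]
        push_cast
        rfl
      rw [h5]
      refine le_trans (by exact_mod_cast h4) (hD _ (natAbs_sub_ne_zero hne) ?_)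
      · have h7 : (∑ i ∈ p.1, a ^ i) < a ^ N :=
          Nat.geomSum_lt ha (fun k hk => Finset.mem_range.mp (hS (hp.1 hk)))
        have h8 : (∑ i ∈ p.2, a ^ i) < a ^ N :=
          Nat.geomSum_lt ha (fun k hk => Finset.mem_range.mp (hS (hp.2 hk)))
        exact natAbs_sub_le h7 h8
  refine (Finset.sum_le_sum h2).trans ?_
  rw [Finset.sum_add_distrib, Finset.sum_const, Finset.card_product, Finset.card_powerset,
    nsmul_eq_mul, Finset.sum_product]
  have h3 : ∀ T ∈ S.powerset, ∑ T' ∈ S.powerset,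
      (if (T, T').1 = (T, T').2 then (x : ℝ) else 0) = x := by
    intro T hT
    simp only
    rw [Finset.sum_ite_eq]
    rw [if_pos hT]
  rw [Finset.sum_congr rfl h3, Finset.sum_const, Finset.card_powerset, nsmul_eq_mul]
  push_cast
  have : (4 : ℝ) ^ S.card = 2 ^ S.card * 2 ^ S.card := by rw [← mul_pow]; norm_num
  rw [this]

end Pool.Agent.Lib.MP_456481_pr
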