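import Mathlib

namespace Pool.Agent.Lib.MP_456481_pr

open Finset

/-- The classical divisor bound: `d(n) ≤ C_ε n^ε`. -/
theorem divisor_bound (ε : ℝ) (hε : 0 < ε) :
    ∃ C : ℝ, 1 ≤ C ∧ ∀ n : ℕ, n ≠ 0 → (n.divisors.card : ℝ) ≤ C * (n : ℝ) ^ ε := by
  have hl2 : 0 < Real.log 2 := Real.log_pos (by norm_num)
  set A : ℝ := max 1 (1 / (ε * Real.log 2)) with hA
  have hA1 : 1 ≤ A := le_max_left _ _
  have hA2 : 1 / (ε * Real.log 2) ≤ A := le_max_right _ _
  have hApos : 0 < A := by linarith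
  set P0 : ℝ := (2 : ℝ) ^ (1 / ε) with hP0
  have hP0pos : 0 < P0 := Real.rpow_pos_of_pos (by norm_num) _
  have hεl : 0 < ε * Real.log 2 := by positivity
  -- key inequality for small primes
  have key1 : ∀ (p : ℕ) (e : ℕ), 2 ≤ p → ((e : ℝ) + 1) ≤ A * ((p : ℝ) ^ e) ^ ε := by
    intro p e hp
    have h2 : (2 : ℝ) ≤ p := by exact_mod_cast hp
    have h3 : ((2 : ℝ) ^ e) ^ ε ≤ ((p : ℝ) ^ e) ^ ε := by
      apply Real.rpow_le_rpow (by positivity) _ hε.le
      exact pow_le_pow_left₀ (by norm_num) h2 e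
    have h4 : 1 + (e : ℝ) * (ε * Real.log 2) ≤ ((2 : ℝ) ^ e) ^ ε := by
      have h5 : ((2 : ℝ) ^ e) ^ ε = Real.exp ((e : ℝ) * (ε * Real.log 2)) := by
        rw [Real.rpow_def_of_pos (by positivity), Real.log_pow]
        congr 1
        ring
      rw [h5]
      have := Real.add_one_le_exp ((e : ℝ) * (ε * Real.log 2))
      linarith
    have h6 : (e : ℝ) ≤ A * ((e : ℝ) * (ε * Real.log 2)) := by
      have h7 : (1 : ℝ) ≤ A * (ε * Real.log 2) := by
        have := mul_le_mul_of_nonneg_right hA2 hεl.le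
        rwa [div_mul_cancel₀ _ hεl.ne'] at this
      nlinarith [Nat.cast_nonneg (α := ℝ) e]
    calc (e : ℝ) + 1 ≤ A * ((e : ℝ) * (ε * Real.log 2)) + A * 1 := by linarith
      _ = A * (1 + (e : ℝ) * (ε * Real.log 2)) := by ring
      _ ≤ A * ((p : ℝ) ^ e) ^ ε := by
        apply mul_le_mul_of_nonneg_left (le_trans h4 h3) hApos.le
  have key2 : ∀ (p : ℕ) (e : ℕ), P0 ≤ (p : ℝ) → ((e : ℝ) + 1) ≤ 1 * ((p : ℝ) ^ e) ^ ε := by
    intro p e hp
    rw [one_mul]
    have h3 : (P0 ^ e) ^ ε ≤ ((p : ℝ) ^ e) ^ ε := by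
      apply Real.rpow_le_rpow (by positivity) _ hε.le
      exact pow_le_pow_left₀ hP0pos.le hp e
    have h4 : (P0 ^ e) ^ ε = (2 : ℝ) ^ e := by
      have h5 : P0 ^ ε = 2 := by
        rw [hP0, ← Real.rpow_mul (by norm_num), one_div, inv_mul_cancel₀ hε.ne', Real.rpow_one]
      rw [← Real.rpow_natCast P0 e, ← Real.rpow_mul hP0pos.le, mul_comm,
        Real.rpow_mul hP0pos.le, h5, Real.rpow_natCast]
    have h5 : (e : ℝ) + 1 ≤ (2 : ℝ) ^ e := by
      have : e + 1 ≤ 2 ^ e := Nat.lt_two_pow_self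
      exact_mod_cast this
    linarith [h4 ▸ h3]
  refine ⟨A ^ ⌈P0⌉₊, one_le_pow₀ hA1, ?_⟩
  intro n hn
  rw [Nat.card_divisors hn]
  push_cast
  have hfac : (n : ℝ) = ∏ p ∈ n.primeFactors, (p : ℝ) ^ (n.factorization p) := by
    conv_lhs => rw [← Nat.prod_factorization_pow_eq_self hn]
    rw [Finsupp.prod]
    push_cast
    rfl
  have h1 : ∏ p ∈ n.primeFactors, ((n.factorization p : ℝ) + 1) ≤
      ∏ p ∈ n.primeFactors, ((if (p : ℝ) < P0 then A else 1) *
        ((p : ℝ) ^ (n.factorization p)) ^ ε) := by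
    apply Finset.prod_le_prod
    · intro p _; positivity
    · intro p hp
      have hpp : 2 ≤ p := (Nat.prime_of_mem_primeFactors hp).two_le
      split_ifs with h
      · exact key1 p _ hpp
      · exact key2 p _ (not_lt.mp h)
  refine le_trans h1 ?_
  rw [Finset.prod_mul_distrib]
  have h2 : ∏ p ∈ n.primeFactors, ((p : ℝ) ^ (n.factorization p)) ^ ε = (n : ℝ) ^ ε := by
    rw [Real.finsetProd_rpow _ _ (fun i _ => by positivity), ← hfac]
  rw [h2]
  apply mul_le_mul_of_nonneg_right _ (by positivity)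
  rw [Finset.prod_ite]
  simp only [Finset.prod_const, one_pow, mul_one]
  apply pow_le_pow_right₀ hA1
  have : (n.primeFactors.filter (fun p : ℕ => (p : ℝ) < P0)) ⊆ Finset.range ⌈P0⌉₊ := by
    intro p hp
    rw [Finset.mem_filter] at hp
    rw [Finset.mem_range]
    exact Nat.lt_ceil.mpr hp.2
  calc _ ≤ (Finset.range ⌈P0⌉₊).card := Finset.card_le_card this
    _ = _ := by simp

end Pool.Agent.Lib.MP_456481_pr
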