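import Mathlib
import Pool.Agent.Lib.MP_456481_pr.Trig

namespace Pool.Agent.Lib.MP_456481_pr

open Finset

theorem sep_fractions {r s : ℕ} (hr : 0 < r) (hs : 0 < s) (hrs : r ≠ s) (k l : ℤ)
    (hk : IsCoprime k (r : ℤ)) (hl : IsCoprime l (s : ℤ)) :
    1 / ((r : ℝ) * s) ≤ |(k : ℝ) / r - l / s| := by
  have hr' : (0 : ℝ) < r := by exact_mod_cast hr
  have hs' : (0 : ℝ) < s := by exact_mod_cast hs
  have h1 : (k : ℝ) / r - l / s = ((k * s - l * r : ℤ) : ℝ) / (r * s) := by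
    push_cast
    field_simp
  rw [h1, abs_div, abs_of_pos (mul_pos hr' hs')]
  apply div_le_div_of_nonneg_right _ (mul_pos hr' hs').le
  have h2 : (k * s - l * r : ℤ) ≠ 0 := by
    intro h3
    apply hrs
    have h4 : k * s = l * r := by linarith
    have h5 : (r : ℤ) ∣ s := by
      apply hk.symm.dvd_of_dvd_mul_left
      rw [h4]
      exact dvd_mul_left _ _
    have h6 : (s : ℤ) ∣ r := by
      apply hl.symm.dvd_of_dvd_mul_left
      rw [← h4]
      exact dvd_mul_left _ _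
    exact Nat.dvd_antisymm (by exact_mod_cast h5) (by exact_mod_cast h6)
  have h3 := Int.one_le_abs h2
  exact_mod_cast h3

open Classical in
/-- Denominators in `(2^(j-1), 2^j]` possessing a reduced fraction with large `F`. -/
noncomputable def Bad (a : ℕ) (θ : ℝ) (j : ℕ) : Finset ℕ :=
  (Finset.Ioc (2 ^ (j - 1)) (2 ^ j)).filter
    (fun r => ∃ k : ℤ, IsCoprime k (r : ℤ) ∧ θ ^ j < F a j ((k : ℝ) / r))

theorem mem_Bad {a : ℕ} {θ : ℝ} {j r : ℕ} : r ∈ Bad a θ j ↔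
    (2 ^ (j - 1) < r ∧ r ≤ 2 ^ j) ∧ ∃ k : ℤ, IsCoprime k (r : ℤ) ∧ θ ^ j < F a j ((k : ℝ) / r) := by
  simp only [Bad, Finset.mem_filter, Finset.mem_Ioc]

theorem card_Bad_le (a : ℕ) (ha : 5 ≤ a) (θ : ℝ) (hθ : 0 < θ) (t : ℕ) (j : ℕ) :
    ((Bad a θ j).card : ℝ) * (θ ^ t) ^ j ≤ (1 + (a + 1) * rho a ^ t) ^ j := by
  classical
  have ha' : (5 : ℝ) ≤ a := by exact_mod_cast ha
  have hrho := rho_nonneg a
  rcases Nat.eq_zero_or_pos j with hj | hj
  · subst hj
    have : Bad a θ 0 = ∅ := by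
      unfold Bad
      simp
    rw [this]
    simp
  -- choose numerators
  have hch : ∀ r : ℕ, ∃ k : ℤ, r ∈ Bad a θ j → (IsCoprime k (r : ℤ) ∧ θ ^ j < F a j ((k : ℝ) / r)) := by
    intro r
    by_cases h : r ∈ Bad a θ j
    · have h' := h
      unfold Bad at h
      rw [Finset.mem_filter] at h
      obtain ⟨k, hk⟩ := h.2
      exact ⟨k, fun _ => hk⟩
    · exact ⟨0, fun h' => absurd h' h⟩
  choose κ hκ using hch
  have hrange : ∀ r ∈ Bad a θ j, 0 < r ∧ r ≤ 2 ^ j := by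
    intro r hr
    rw [mem_Bad] at hr
    exact ⟨lt_of_le_of_lt (Nat.zero_le _) hr.1.1, hr.1.2⟩
  set ξ : ℕ → ℝ := fun r => (κ r : ℝ) / r - round ((κ r : ℝ) / r) with hξ
  have hξeq : ∀ r ∈ Bad a θ j, ξ r = ((κ r - r * round ((κ r : ℝ) / r) : ℤ) : ℝ) / r := by
    intro r hr
    have hr0 : (0 : ℝ) < r := by exact_mod_cast (hrange r hr).1
    rw [hξ]
    push_cast
    field_simp
  have hcop : ∀ r ∈ Bad a θ j, IsCoprime (κ r - r * round ((κ r : ℝ) / r) : ℤ) (r : ℤ) := by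
    intro r hr
    have h1 := (hκ r hr).1
    have h2 : (κ r - r * round ((κ r : ℝ) / r) : ℤ) =
        κ r + (r : ℤ) * (-round ((κ r : ℝ) / r)) := by ring
    rw [h2]
    exact IsCoprime.add_mul_left_left h1 _
  have hsep : ∀ r ∈ Bad a θ j, ∀ s ∈ Bad a θ j, r ≠ s → 1 < (a : ℝ) ^ j * |ξ r - ξ s| := by
    intro r hr s hs hrs
    obtain ⟨hr0, hr1⟩ := hrange r hr
    obtain ⟨hs0, hs1⟩ := hrange s hs
    have h1 := sep_fractions hr0 hs0 hrs _ _ (hcop r hr) (hcop s hs)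
    rw [← hξeq r hr, ← hξeq s hs] at h1
    have hr1' : (r : ℝ) ≤ 2 ^ j := by exact_mod_cast hr1
    have hs1' : (s : ℝ) ≤ 2 ^ j := by exact_mod_cast hs1
    have hr0' : (0 : ℝ) < r := by exact_mod_cast hr0
    have hs0' : (0 : ℝ) < s := by exact_mod_cast hs0
    have h2 : (r : ℝ) * s ≤ 4 ^ j := by
      calc (r : ℝ) * s ≤ 2 ^ j * 2 ^ j := mul_le_mul hr1' hs1' hs0'.le (by positivity)
        _ = 4 ^ j := by rw [← mul_pow]; norm_num
    have h3 : (4 : ℝ) ^ j < (a : ℝ) ^ j := pow_lt_pow_left₀ (by linarith) (by norm_num) (by omega)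
    have h4 : 1 < (a : ℝ) ^ j * (1 / ((r : ℝ) * s)) := by
      rw [mul_one_div, lt_div_iff₀ (by positivity)]
      linarith
    calc 1 < (a : ℝ) ^ j * (1 / ((r : ℝ) * s)) := h4
      _ ≤ _ := mul_le_mul_of_nonneg_left h1 (by positivity)
  have hinj : Set.InjOn ξ (Bad a θ j : Set ℕ) := by
    intro r hr s hs hrs
    by_contra hne
    have := hsep r hr s hs hne
    rw [hrs] at this
    simp at this
    linarith
  have hmain := sum_F_pow_le a (by omega) t j ((Bad a θ j).image ξ) (by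
    intro x hx
    rw [Finset.mem_image] at hx
    obtain ⟨r, _, rfl⟩ := hx
    exact abs_sub_round _) (by
    intro x hx y hy hxy
    rw [Finset.mem_image] at hx hy
    obtain ⟨r, hr, rfl⟩ := hx
    obtain ⟨s, hs, rfl⟩ := hy
    exact hsep r hr s hs (fun h => hxy (by rw [h])))
  rw [Finset.sum_image hinj] at hmain
  refine le_trans ?_ hmain
  rw [← nsmul_eq_mul, ← Finset.sum_const]
  apply Finset.sum_le_sum
  intro r hr
  have h1 := (hκ r hr).2
  rw [hξ]
  simp only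
  rw [F_sub_int, ← pow_mul, mul_comm, pow_mul]
  exact pow_le_pow_left₀ (by positivity) h1.le t

/-- Choice of the exponent and of the threshold. -/
theorem exists_params (a : ℕ) (ha : 5 ≤ a) :
    ∃ θ : ℝ, 0 < θ ∧ θ < 1 ∧ ∀ j, ((Bad a θ j).card : ℝ) ≤ (3 / 2) ^ j := by
  have ha' : (5 : ℝ) ≤ a := by exact_mod_cast ha
  obtain ⟨t, ht⟩ := exists_pow_lt_of_lt_one (show (0 : ℝ) < 1 / (4 * (a + 1)) by positivity)
    (rho_lt_one a (by omega))
  have ht0 : rho a ^ (t + 1) < 1 / (4 * (a + 1)) := by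
    refine lt_of_le_of_lt ?_ ht
    exact pow_le_pow_of_le_one (rho_nonneg a) (rho_lt_one a (by omega)).le (Nat.le_succ t)
  have hM : 1 + ((a : ℝ) + 1) * rho a ^ (t + 1) ≤ 5 / 4 := by
    rw [lt_div_iff₀ (by positivity)] at ht0
    nlinarith
  refine ⟨(5 / 6 : ℝ) ^ (1 / ((t + 1 : ℕ) : ℝ)), by positivity, ?_, ?_⟩
  · apply Real.rpow_lt_one (by norm_num) (by norm_num) (by positivity)
  · intro j
    set θ : ℝ := (5 / 6 : ℝ) ^ (1 / ((t + 1 : ℕ) : ℝ)) with hθ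
    have hθ0 : 0 < θ := by positivity
    have hθt : θ ^ (t + 1) = 5 / 6 := by
      rw [hθ, one_div, Real.rpow_inv_natCast_pow (by norm_num) (by omega)]
    have h1 := card_Bad_le a ha θ hθ0 (t + 1) j
    rw [hθt] at h1
    have h2 : (1 + ((a : ℝ) + 1) * rho a ^ (t + 1)) ^ j ≤ (5 / 4) ^ j := by
      apply pow_le_pow_left₀ _ hM
      have := rho_nonneg a
      positivity
    have h3 : (5 / 4 : ℝ) ^ j = (3 / 2) ^ j * (5 / 6) ^ j := by
      rw [← mul_pow]; norm_num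
    rw [h3] at h2
    have h4 : (0 : ℝ) < (5 / 6) ^ j := by positivity
    exact le_of_mul_le_mul_right (le_trans h1 h2) h4

/-- Exceptional moduli: those divisible by a bad denominator. -/
def Exc (a : ℕ) (θ : ℝ) (J : ℕ) : Set ℕ :=
  {q | ∃ j, J ≤ j ∧ ∃ r ∈ Bad a θ j, r ∣ q}

open Classical in
theorem card_Exc_le (a : ℕ) (θ : ℝ) (hθ : ∀ j, ((Bad a θ j).card : ℝ) ≤ (3 / 2) ^ j)
    (J x : ℕ) :
    (((Finset.Ioc 0 x).filter (fun q => q ∈ Exc a θ J)).card : ℝ) ≤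
      8 * (x : ℝ) * (3 / 4) ^ J := by
  have hsub : (Finset.Ioc 0 x).filter (fun q => q ∈ Exc a θ J) ⊆
      (Finset.Ico J (x + 1)).biUnion (fun j => (Bad a θ j).biUnion
        (fun r => (Finset.Ioc 0 x).filter (fun q => r ∣ q))) := by
    intro q hq
    rw [Finset.mem_filter, Finset.mem_Ioc] at hq
    obtain ⟨⟨hq0, hqx⟩, j, hJj, r, hr, hrq⟩ := hq
    rw [Finset.mem_biUnion]
    refine ⟨j, ?_, ?_⟩
    · rw [Finset.mem_Ico]
      refine ⟨hJj, ?_⟩
      rw [mem_Bad] at hr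
      have h1 : r ≤ q := Nat.le_of_dvd hq0 hrq
      have h2 : j - 1 < 2 ^ (j - 1) := Nat.lt_two_pow_self
      omega
    · rw [Finset.mem_biUnion]
      refine ⟨r, hr, ?_⟩
      rw [Finset.mem_filter, Finset.mem_Ioc]
      exact ⟨⟨hq0, hqx⟩, hrq⟩
  have h1 : (((Finset.Ioc 0 x).filter (fun q => q ∈ Exc a θ J)).card : ℝ) ≤
      ∑ j ∈ Finset.Ico J (x + 1), ∑ r ∈ Bad a θ j,
        (((Finset.Ioc 0 x).filter (fun q => r ∣ q)).card : ℝ) := by
    have h2 := (Finset.card_le_card hsub).trans Finset.card_biUnion_le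
    have h3 : ∀ j ∈ Finset.Ico J (x + 1), ((Bad a θ j).biUnion
        (fun r => (Finset.Ioc 0 x).filter (fun q => r ∣ q))).card ≤
        ∑ r ∈ Bad a θ j, ((Finset.Ioc 0 x).filter (fun q => r ∣ q)).card :=
      fun j _ => Finset.card_biUnion_le
    have h4 := h2.trans (Finset.sum_le_sum h3)
    exact_mod_cast h4
  refine h1.trans ?_
  have h5 : ∀ j ∈ Finset.Ico J (x + 1), ∑ r ∈ Bad a θ j,
        (((Finset.Ioc 0 x).filter (fun q => r ∣ q)).card : ℝ) ≤ 2 * x * (3 / 4) ^ j := by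
    intro j _
    have h6 : ∀ r ∈ Bad a θ j, (((Finset.Ioc 0 x).filter (fun q => r ∣ q)).card : ℝ) ≤
        2 * x / 2 ^ j := by
      intro r hr
      rw [Nat.Ioc_filter_dvd_card_eq_div]
      rw [mem_Bad] at hr
      have hr1 : (2 : ℝ) ^ (j - 1) ≤ r := by exact_mod_cast hr.1.1.le
      have hj : 1 ≤ j := by
        by_contra hj
        have : j = 0 := by omega
        subst this
        have := hr.1
        simp at this
        omega
      have hr2 : (2 : ℝ) ^ j ≤ 2 * r := by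
        calc (2 : ℝ) ^ j = 2 ^ (j - 1) * 2 := by
              rw [← pow_succ]; congr 1; omega
          _ ≤ _ := by linarith
      have hr0 : (0 : ℝ) < r := lt_of_lt_of_le (by positivity) hr1
      calc ((x / r : ℕ) : ℝ) ≤ (x : ℝ) / r := Nat.cast_div_le
        _ ≤ 2 * x / 2 ^ j := by
          rw [div_le_div_iff₀ hr0 (by positivity)]
          nlinarith [Nat.cast_nonneg (α := ℝ) x]
    calc ∑ r ∈ Bad a θ j, (((Finset.Ioc 0 x).filter (fun q => r ∣ q)).card : ℝ)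
        ≤ ∑ r ∈ Bad a θ j, 2 * (x : ℝ) / 2 ^ j := Finset.sum_le_sum h6
      _ = (Bad a θ j).card * (2 * (x : ℝ) / 2 ^ j) := by
          rw [Finset.sum_const, nsmul_eq_mul]
      _ ≤ (3 / 2) ^ j * (2 * (x : ℝ) / 2 ^ j) :=
          mul_le_mul_of_nonneg_right (hθ j) (by positivity)
      _ = 2 * x * (3 / 4) ^ j := by
          rw [show (3 / 4 : ℝ) = (3 / 2) / 2 by norm_num, div_pow (3 / 2 : ℝ)]
          ring
  refine (Finset.sum_le_sum h5).trans ?_
  rw [← Finset.mul_sum]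
  have h7 := geom_sum_Ico_le_of_lt_one (show (0 : ℝ) ≤ 3 / 4 by norm_num)
    (by norm_num) (m := J) (n := x + 1)
  calc 2 * (x : ℝ) * ∑ i ∈ Finset.Ico J (x + 1), (3 / 4 : ℝ) ^ i
      ≤ 2 * (x : ℝ) * ((3 / 4) ^ J / (1 - 3 / 4)) := by
        apply mul_le_mul_of_nonneg_left h7 (by positivity)
    _ = _ := by ring

/-- Windows: outside the exceptional set all fractions with large denominators have small `F`. -/
theorem F_le_of_not_Exc (a : ℕ) (θ : ℝ) (hθ0 : 0 < θ) (J : ℕ) (q : ℕ)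
    (hq : q ∉ Exc a θ J) (r : ℕ) (hrq : r ∣ q) (har : Nat.Coprime a r) (hrJ : 2 ^ J < r)
    (k : ℤ) (hk : IsCoprime k (r : ℤ)) (N : ℕ) (hN : Nat.clog 2 r ≤ N) :
    ∃ N' : ℕ, N ≤ 2 * N' ∧ F a N ((k : ℝ) / r) ≤ θ ^ N' := by
  have hr2 : 2 ≤ r := by
    have : 1 ≤ 2 ^ J := Nat.one_le_two_pow
    omega
  set j := Nat.clog 2 r with hj
  have hj1 : r ≤ 2 ^ j := Nat.le_pow_clog (by norm_num) r
  have hj2 : 2 ^ (j - 1) < r := Nat.pow_pred_clog_lt_self (by norm_num) (by omega)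
  have hj0 : 0 < j := Nat.clog_pos (by norm_num) hr2
  have hJj : J ≤ j := by
    have : 2 ^ J < 2 ^ j := lt_of_lt_of_le hrJ hj1
    exact ((Nat.pow_lt_pow_iff_right (by norm_num)).mp this).le
  have hbase : ∀ l : ℤ, IsCoprime l (r : ℤ) → F a j ((l : ℝ) / r) ≤ θ ^ j := by
    intro l hl
    by_contra hcon
    push Not at hcon
    apply hq
    refine ⟨j, hJj, r, ?_, hrq⟩
    rw [mem_Bad]
    exact ⟨⟨hj2, hj1⟩, l, hl, hcon⟩
  have hiter : ∀ n : ℕ, ∀ l : ℤ, IsCoprime l (r : ℤ) → F a (j * n) ((l : ℝ) / r) ≤ θ ^ (j * n) := by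
    intro n
    induction n with
    | zero => intro l _; simp
    | succ n ih =>
      intro l hl
      have h1 : j * (n + 1) = j + j * n := by ring
      rw [h1, F_add, pow_add]
      have h2 : (a : ℝ) ^ j * ((l : ℝ) / r) = (((a : ℤ) ^ j * l : ℤ) : ℝ) / r := by
        push_cast; ring
      rw [h2]
      have h3 : IsCoprime ((a : ℤ) ^ j * l) (r : ℤ) := by
        apply IsCoprime.mul_left _ hl
        apply IsCoprime.pow_left
        exact Nat.isCoprime_iff_coprime.mpr har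
      exact mul_le_mul (hbase l hl) (ih _ h3) (F_nonneg _ _ _) (by positivity)
  refine ⟨j * (N / j), ?_, ?_⟩
  · have h1 := Nat.div_add_mod N j
    have h2 := Nat.mod_lt N hj0
    have h3 : 1 ≤ N / j := (Nat.one_le_div_iff hj0).mpr hN
    have h4 : j * 1 ≤ j * (N / j) := Nat.mul_le_mul_left j h3
    omega
  · have h1 : N = j * (N / j) + N % j := (Nat.div_add_mod N j).symm
    conv_lhs => rw [h1]
    rw [F_add]
    calc _ ≤ θ ^ (j * (N / j)) * 1 :=
          mul_le_mul (hiter _ k hk) (F_le_one _ _ _) (F_nonneg _ _ _) (by positivity)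
      _ = _ := mul_one _

end Pool.Agent.Lib.MP_456481_pr
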