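import Mathlib
import Pool.Agent.Lib.MP_456481_pr.Bad

namespace Pool.Agent.Lib.MP_456481_pr

open Finset

/-- Reduced form of `k/q`. -/
theorem reduced (q k : ℕ) (hk : 0 < k) (hkq : k < q) :
    0 < q / Nat.gcd q k ∧ q / Nat.gcd q k ∣ q ∧
    IsCoprime ((k / Nat.gcd q k : ℕ) : ℤ) ((q / Nat.gcd q k : ℕ) : ℤ) ∧
    (k : ℝ) / q = (((k / Nat.gcd q k : ℕ) : ℤ) : ℝ) / ((q / Nat.gcd q k : ℕ) : ℝ) ∧
    k / Nat.gcd q k < q / Nat.gcd q k ∧ 0 < k / Nat.gcd q k := by
  have hq : 0 < q := by omega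
  have hg : 0 < Nat.gcd q k := Nat.gcd_pos_of_pos_left _ hq
  have h1 : Nat.gcd q k ∣ q := Nat.gcd_dvd_left _ _
  have h2 : Nat.gcd q k ∣ k := Nat.gcd_dvd_right _ _
  obtain ⟨r, hr⟩ := h1
  obtain ⟨l, hl⟩ := h2
  set d := Nat.gcd q k with hd
  have hr1 : q / d = r := by rw [hr]; exact Nat.mul_div_cancel_left r hg
  have hl1 : k / d = l := by rw [hl]; exact Nat.mul_div_cancel_left l hg
  have hr0 : 0 < r := Nat.pos_of_ne_zero (by rintro rfl; simp at hr; omega)
  have hl0 : 0 < l := Nat.pos_of_ne_zero (by rintro rfl; simp at hl; omega)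
  have hcop : Nat.Coprime r l := by
    have := Nat.coprime_div_gcd_div_gcd (m := q) (n := k) hg
    rwa [← hd, hr1, hl1] at this
  rw [hr1, hl1]
  refine ⟨hr0, ⟨d, by rw [hr]; ring⟩, Nat.isCoprime_iff_coprime.mpr hcop.symm, ?_, ?_, hl0⟩
  · have hd' : (d : ℝ) ≠ 0 := by exact_mod_cast hg.ne'
    have hr' : (r : ℝ) ≠ 0 := by exact_mod_cast hr0.ne'
    conv_lhs => rw [hr, hl]
    push_cast
    field_simp
  · rw [hr, hl] at hkq
    exact lt_of_mul_lt_mul_left hkq (Nat.zero_le d)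

theorem F_small_iter (a : ℕ) (ha : 4 ≤ a) (J : ℕ) (r : ℕ) (hr : 0 < r)
    (hrJ : r ≤ 2 ^ J) (har : Nat.Coprime a r) (n : ℕ) :
    ∀ k : ℤ, ¬ (r : ℤ) ∣ k → F a (J * n) ((k : ℝ) / r) ≤ rho a ^ n := by
  induction n with
  | zero => intro k _; simp
  | succ n ih =>
    intro k hk
    have h1 : J * (n + 1) = J + J * n := by ring
    rw [h1, F_add, pow_succ, mul_comm (rho a ^ n)]
    have h2 : (a : ℝ) ^ J * ((k : ℝ) / r) = (((a : ℤ) ^ J * k : ℤ) : ℝ) / r := by
      push_cast; ring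
    rw [h2]
    have h3 : ¬ (r : ℤ) ∣ (a : ℤ) ^ J * k := by
      intro h
      apply hk
      have h4 : IsCoprime (r : ℤ) ((a : ℤ) ^ J) := by
        apply IsCoprime.pow_right
        exact (Nat.isCoprime_iff_coprime.mpr har).symm
      exact h4.dvd_of_dvd_mul_left h
    exact mul_le_mul (F_small_den a ha J k r hr hrJ hk) (ih _ h3) (F_nonneg _ _ _)
      (rho_nonneg a)

theorem F_le_of_small_den (a : ℕ) (ha : 4 ≤ a) (J : ℕ) (r : ℕ) (hr : 0 < r)
    (hrJ : r ≤ 2 ^ J) (har : Nat.Coprime a r) (k : ℤ) (hk : ¬ (r : ℤ) ∣ k) (N : ℕ) :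
    F a N ((k : ℝ) / r) ≤ rho a ^ (N / J) := by
  have h1 : N = J * (N / J) + N % J := (Nat.div_add_mod N J).symm
  conv_lhs => rw [h1]
  rw [F_add]
  calc _ ≤ rho a ^ (N / J) * 1 :=
        mul_le_mul (F_small_iter a ha J r hr hrJ har (N / J) k hk) (F_le_one _ _ _)
          (F_nonneg _ _ _) (pow_nonneg (rho_nonneg a) _)
    _ = _ := mul_one _

theorem F_blocks (a m B : ℕ) (x : ℝ) :
    F a (B * m) x = ∏ b ∈ Finset.range B, F a m ((a : ℝ) ^ (b * m) * x) := by
  induction B with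
  | zero => simp
  | succ B ih => rw [Nat.add_mul, one_mul, F_add, ih, Finset.prod_range_succ]

theorem F_shift (a m c : ℕ) (x : ℝ) :
    F a m ((a : ℝ) ^ c * x) = ∏ i ∈ Finset.Ico c (c + m), g ((a : ℝ) ^ i * x) := by
  rw [Finset.prod_Ico_eq_prod_range, Nat.add_sub_cancel_left]
  unfold F
  apply Finset.prod_congr rfl
  intro i _
  congr 1
  ring

/-- the block removed -/
def rest (N m b : ℕ) : Finset ℕ := Finset.range N \ Finset.Ico (b * m) (b * m + m)

theorem rest_card (B m b : ℕ) (hb : b < B) : (rest (B * m) m b).card = (B - 1) * m := by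
  unfold rest
  have h1 : Finset.Ico (b * m) (b * m + m) ⊆ Finset.range (B * m) := by
    intro i hi
    rw [Finset.mem_Ico] at hi
    rw [Finset.mem_range]
    have : (b + 1) * m ≤ B * m := Nat.mul_le_mul_right m hb
    rw [Nat.add_mul, one_mul] at this
    omega
  rw [Finset.card_sdiff_of_subset h1, Finset.card_range, Nat.card_Ico, Nat.sub_mul, one_mul]
  omega

theorem F_eq_rest (a B m b : ℕ) (hb : b < B) (x : ℝ) :
    F a (B * m) x = (∏ i ∈ rest (B * m) m b, g ((a : ℝ) ^ i * x)) *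
      F a m ((a : ℝ) ^ (b * m) * x) := by
  have h1 : Finset.Ico (b * m) (b * m + m) ⊆ Finset.range (B * m) := by
    intro i hi
    rw [Finset.mem_Ico] at hi
    rw [Finset.mem_range]
    have : (b + 1) * m ≤ B * m := Nat.mul_le_mul_right m hb
    rw [Nat.add_mul, one_mul] at this
    omega
  rw [F_shift]
  unfold F rest
  exact (Finset.prod_sdiff h1).symm

/-- If the whole product is small then one block is small. -/
theorem exists_small_block (a B m' : ℕ) (hB : 0 < B) (θ : ℝ) (hθ : 0 < θ) (x : ℝ)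
    (h : F a (B * (2 * m')) x ≤ θ ^ (B * m')) :
    ∃ b < B, F a (2 * m') ((a : ℝ) ^ (b * (2 * m')) * x) ≤ θ ^ m' := by
  by_contra hcon
  push Not at hcon
  rw [F_blocks] at h
  have h1 : ∏ _b ∈ Finset.range B, θ ^ m' <
      ∏ b ∈ Finset.range B, F a (2 * m') ((a : ℝ) ^ (b * (2 * m')) * x) := by
    apply Finset.prod_lt_prod_of_nonempty
    · intro i _; positivity
    · intro i hi
      exact hcon i (Finset.mem_range.mp hi)
    · exact ⟨0, Finset.mem_range.mpr hB⟩
  rw [Finset.prod_const, Finset.card_range, ← pow_mul, mul_comm m' B] at h1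
  linarith

theorem sum_F_le (a : ℕ) (ha : 5 ≤ a) (θ : ℝ) (hθ0 : 0 < θ) (hθ1 : θ < 1) (J : ℕ)
    (B m' : ℕ) (hB : 0 < B) (q : ℕ) (hcop : Nat.Coprime q a) (hqE : q ∉ Exc a θ J)
    (hN : Nat.clog 2 q ≤ B * (2 * m')) :
    ∑ k ∈ Finset.Ico 1 q, F a (B * (2 * m')) ((k : ℝ) / q) ≤
      4 ^ (J + 1) * rho a ^ (B * (2 * m') / J) +
      ∑ b ∈ Finset.range B, θ ^ m' * ∑ k ∈ Finset.range q,
        ∏ i ∈ rest (B * (2 * m')) (2 * m') b, g ((a : ℝ) ^ i * ((k : ℝ) / q)) := by
  classical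
  set N := B * (2 * m') with hNdef
  rw [← Finset.sum_filter_add_sum_filter_not (Finset.Ico 1 q)
    (fun k => q / Nat.gcd q k ≤ 2 ^ J)]
  have hcopr : ∀ r, r ∣ q → Nat.Coprime a r := fun r hr =>
    (Nat.Coprime.coprime_dvd_left hr hcop).symm
  apply add_le_add
  · -- small denominators
    have h1 : ∀ k ∈ (Finset.Ico 1 q).filter (fun k => q / Nat.gcd q k ≤ 2 ^ J),
        F a N ((k : ℝ) / q) ≤ rho a ^ (N / J) := by
      intro k hk
      rw [Finset.mem_filter, Finset.mem_Ico] at hk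
      obtain ⟨hr0, hrq, hco, heq, hlt, hl0⟩ := reduced q k (by omega) hk.1.2
      rw [heq]
      apply F_le_of_small_den a (by omega) J _ hr0 hk.2 (hcopr _ hrq)
      intro hdvd
      have h2 := Int.natCast_dvd_natCast.mp hdvd
      have h3 := Nat.le_of_dvd hl0 h2
      omega
    have h2 : (((Finset.Ico 1 q).filter (fun k => q / Nat.gcd q k ≤ 2 ^ J)).card : ℝ) ≤
        4 ^ (J + 1) := by
      have h3 : ((Finset.Ico 1 q).filter (fun k => q / Nat.gcd q k ≤ 2 ^ J)).card ≤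
          ((Finset.range (2 ^ J + 1)) ×ˢ (Finset.range (2 ^ J + 1))).card := by
        apply Finset.card_le_card_of_injOn
          (fun k => (k / Nat.gcd q k, q / Nat.gcd q k))
        · intro k hk
          rw [Finset.mem_coe, Finset.mem_filter, Finset.mem_Ico] at hk
          obtain ⟨hr0, hrq, hco, heq, hlt, hl0⟩ := reduced q k (by omega) hk.1.2
          rw [Finset.mem_coe, Finset.mem_product, Finset.mem_range, Finset.mem_range]
          constructor
          · simp only; omega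
          · simp only; omega
        · intro k hk l hl hkl
          rw [Finset.mem_coe, Finset.mem_filter, Finset.mem_Ico] at hk hl
          simp only [Prod.mk.injEq] at hkl
          obtain ⟨_, _, _, heq, _, _⟩ := reduced q k (by omega) hk.1.2
          obtain ⟨_, _, _, heq', _, _⟩ := reduced q l (by omega) hl.1.2
          rw [hkl.1, hkl.2, ← heq'] at heq
          have hq0 : (q : ℝ) ≠ 0 := by
            have : 0 < q := by omega
            exact_mod_cast this.ne'
          rw [div_left_inj' hq0] at heq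
          exact_mod_cast heq
      rw [Finset.card_product, Finset.card_range] at h3
      have h4 : (2 ^ J + 1) * (2 ^ J + 1) ≤ 4 ^ (J + 1) := by
        have h5 : 1 ≤ 2 ^ J := Nat.one_le_two_pow
        have h6 : 4 ^ (J + 1) = (2 ^ J + 2 ^ J) * (2 ^ J + 2 ^ J) := by
          rw [pow_succ, show (4 : ℕ) = 2 * 2 by norm_num, mul_pow]; ring
        rw [h6]
        exact Nat.mul_le_mul (by omega) (by omega)
      exact_mod_cast h3.trans h4
    calc ∑ k ∈ (Finset.Ico 1 q).filter (fun k => q / Nat.gcd q k ≤ 2 ^ J),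
          F a N ((k : ℝ) / q)
        ≤ ∑ k ∈ (Finset.Ico 1 q).filter (fun k => q / Nat.gcd q k ≤ 2 ^ J),
          rho a ^ (N / J) := Finset.sum_le_sum h1
      _ = (((Finset.Ico 1 q).filter (fun k => q / Nat.gcd q k ≤ 2 ^ J)).card : ℝ) *
          rho a ^ (N / J) := by rw [Finset.sum_const, nsmul_eq_mul]
      _ ≤ _ := mul_le_mul_of_nonneg_right h2 (pow_nonneg (rho_nonneg a) _)
  · -- large denominators
    have h1 : ∀ k ∈ (Finset.Ico 1 q).filter (fun k => ¬ q / Nat.gcd q k ≤ 2 ^ J),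
        F a N ((k : ℝ) / q) ≤ ∑ b ∈ Finset.range B, θ ^ m' *
          ∏ i ∈ rest N (2 * m') b, g ((a : ℝ) ^ i * ((k : ℝ) / q)) := by
      intro k hk
      rw [Finset.mem_filter, Finset.mem_Ico, not_le] at hk
      obtain ⟨hr0, hrq, hco, heq, hlt, hl0⟩ := reduced q k (by omega) hk.1.2
      have hqpos : 0 < q := by omega
      have hclog : Nat.clog 2 (q / Nat.gcd q k) ≤ N :=
        le_trans (Nat.clog_mono_right 2 (Nat.le_of_dvd hqpos hrq)) hN
      obtain ⟨N', hN', hF⟩ := F_le_of_not_Exc a θ hθ0 J q hqE _ hrq (hcopr _ hrq) hk.2 _ hco N hclog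
      rw [← heq] at hF
      have hN'' : B * m' ≤ N' := by
        have : N = 2 * (B * m') := by rw [hNdef]; ring
        omega
      have hF2 : F a N ((k : ℝ) / q) ≤ θ ^ (B * m') :=
        hF.trans (pow_le_pow_of_le_one hθ0.le hθ1.le hN'')
      obtain ⟨b, hb, hblock⟩ := exists_small_block a B m' hB θ hθ0 _ hF2
      have hprod0 : ∀ b, 0 ≤ ∏ i ∈ rest N (2 * m') b, g ((a : ℝ) ^ i * ((k : ℝ) / q)) :=
        fun b => Finset.prod_nonneg fun _ _ => g_nonneg _
      calc F a N ((k : ℝ) / q) = (∏ i ∈ rest N (2 * m') b, g ((a : ℝ) ^ i * ((k : ℝ) / q))) *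
            F a (2 * m') ((a : ℝ) ^ (b * (2 * m')) * ((k : ℝ) / q)) :=
            F_eq_rest a B (2 * m') b hb _
        _ ≤ (∏ i ∈ rest N (2 * m') b, g ((a : ℝ) ^ i * ((k : ℝ) / q))) * θ ^ m' :=
            mul_le_mul_of_nonneg_left hblock (hprod0 b)
        _ = θ ^ m' * ∏ i ∈ rest N (2 * m') b, g ((a : ℝ) ^ i * ((k : ℝ) / q)) := mul_comm _ _
        _ ≤ _ := Finset.single_le_sum
            (f := fun b => θ ^ m' * ∏ i ∈ rest N (2 * m') b, g ((a : ℝ) ^ i * ((k : ℝ) / q)))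
            (fun b _ => mul_nonneg (by positivity) (hprod0 b)) (Finset.mem_range.mpr hb)
    calc ∑ k ∈ (Finset.Ico 1 q).filter (fun k => ¬ q / Nat.gcd q k ≤ 2 ^ J), F a N ((k : ℝ) / q)
        ≤ ∑ k ∈ (Finset.Ico 1 q).filter (fun k => ¬ q / Nat.gcd q k ≤ 2 ^ J),
          ∑ b ∈ Finset.range B, θ ^ m' *
          ∏ i ∈ rest N (2 * m') b, g ((a : ℝ) ^ i * ((k : ℝ) / q)) := Finset.sum_le_sum h1
      _ ≤ ∑ k ∈ Finset.range q, ∑ b ∈ Finset.range B, θ ^ m' *
          ∏ i ∈ rest N (2 * m') b, g ((a : ℝ) ^ i * ((k : ℝ) / q)) := by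
          apply Finset.sum_le_sum_of_subset_of_nonneg
          · intro k hk
            rw [Finset.mem_filter, Finset.mem_Ico] at hk
            exact Finset.mem_range.mpr hk.1.2
          · intro k _ _
            exact Finset.sum_nonneg fun b _ =>
              mul_nonneg (by positivity) (Finset.prod_nonneg fun _ _ => g_nonneg _)
      _ = _ := by
          rw [Finset.sum_comm]
          apply Finset.sum_congr rfl
          intro b _
          rw [Finset.mul_sum]

end Pool.Agent.Lib.MP_456481_pr
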