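import Mathlib
import Pool.Agent.Lib.MP_456481_pr.Divisor
import Pool.Agent.Lib.MP_456481_pr.Split
import Pool.Agent.Lib.MP_456481_pr.Collide

namespace Pool.Agent.Lib.MP_456481_pr

open Finset

/-- The weighted sum over frequencies with one block removed. -/
noncomputable def U (a : ℕ) (θ : ℝ) (B m' q : ℕ) : ℝ :=
  ∑ b ∈ Finset.range B, θ ^ m' * ∑ k ∈ Finset.range q,
    ∏ i ∈ rest (B * (2 * m')) (2 * m') b, g ((a : ℝ) ^ i * ((k : ℝ) / q))

theorem U_nonneg (a : ℕ) (θ : ℝ) (hθ : 0 ≤ θ) (B m' q : ℕ) : 0 ≤ U a θ B m' q :=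
  Finset.sum_nonneg fun _ _ => mul_nonneg (pow_nonneg hθ _)
    (Finset.sum_nonneg fun _ _ => Finset.prod_nonneg fun _ _ => g_nonneg _)

theorem sum_U_le (a : ℕ) (ha : 5 ≤ a) (θ : ℝ) (hθ : 0 < θ) (B m' x : ℕ) (D : ℝ) (hD0 : 0 ≤ D)
    (hD : ∀ m : ℕ, m ≠ 0 → m ≤ a ^ (B * (2 * m')) → (m.divisors.card : ℝ) ≤ D) :
    ∑ q ∈ Finset.Ioc 0 x, U a θ B m' q ≤
      B * (θ ^ m' * (x * (x / 2 ^ ((B - 1) * (2 * m')) + D))) := by
  unfold U
  rw [Finset.sum_comm]
  have h1 : ∀ b ∈ Finset.range B, ∑ q ∈ Finset.Ioc 0 x, θ ^ m' * ∑ k ∈ Finset.range q,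
      ∏ i ∈ rest (B * (2 * m')) (2 * m') b, g ((a : ℝ) ^ i * ((k : ℝ) / q)) ≤
      θ ^ m' * (x * (x / 2 ^ ((B - 1) * (2 * m')) + D)) := by
    intro b hb
    rw [Finset.mem_range] at hb
    rw [← Finset.mul_sum]
    apply mul_le_mul_of_nonneg_left _ (by positivity)
    set S := rest (B * (2 * m')) (2 * m') b with hS
    set s := (B - 1) * (2 * m') with hs
    have hcard : S.card = s := rest_card B (2 * m') b hb
    have h2 : ∀ q ∈ Finset.Ioc 0 x, ∑ k ∈ Finset.range q,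
        ∏ i ∈ S, g ((a : ℝ) ^ i * ((k : ℝ) / q)) ≤ x * (Col S (fun i => a ^ i) q / 4 ^ s) := by
      intro q hq
      rw [Finset.mem_Ioc] at hq
      have h3 := parseval S (fun i => a ^ i) q hq.1
      rw [hcard] at h3
      push_cast at h3
      have h4 : (0 : ℝ) < 4 ^ s := by positivity
      have h5 : ∑ k ∈ Finset.range q, ∏ i ∈ S, g ((a : ℝ) ^ i * ((k : ℝ) / q)) =
          q * (Col S (fun i => a ^ i) q / 4 ^ s) := by
        rw [← mul_div_assoc, eq_div_iff h4.ne', mul_comm]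
        exact h3
      rw [h5]
      apply mul_le_mul_of_nonneg_right _ (by positivity)
      exact_mod_cast hq.2
    have h3 := sum_Col_le a (by omega) S (B * (2 * m')) Finset.sdiff_subset x D hD0 hD
    rw [hcard] at h3
    calc ∑ q ∈ Finset.Ioc 0 x, ∑ k ∈ Finset.range q, ∏ i ∈ S, g ((a : ℝ) ^ i * ((k : ℝ) / q))
        ≤ ∑ q ∈ Finset.Ioc 0 x, x * (Col S (fun i => a ^ i) q / 4 ^ s : ℝ) :=
          Finset.sum_le_sum h2
      _ = x * ((∑ q ∈ Finset.Ioc 0 x, (Col S (fun i => a ^ i) q : ℝ)) / 4 ^ s) := by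
          rw [← Finset.mul_sum, Finset.sum_div]
      _ ≤ x * ((2 ^ s * x + 4 ^ s * D) / 4 ^ s) := by
          apply mul_le_mul_of_nonneg_left _ (by positivity)
          exact div_le_div_of_nonneg_right h3 (by positivity)
      _ = x * (x / 2 ^ s + D) := by
          congr 1
          have : (4 : ℝ) ^ s = 2 ^ s * 2 ^ s := by rw [← mul_pow]; norm_num
          rw [this]
          field_simp
  calc _ ≤ ∑ b ∈ Finset.range B, θ ^ m' * (x * (x / 2 ^ ((B - 1) * (2 * m')) + D)) :=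
        Finset.sum_le_sum h1
    _ = _ := by rw [Finset.sum_const, Finset.card_range, nsmul_eq_mul]

open Classical in
theorem card_U_gt_le (a : ℕ) (ha : 5 ≤ a) (θ : ℝ) (hθ : 0 < θ) (B m' x : ℕ) (D : ℝ)
    (hD0 : 0 ≤ D)
    (hD : ∀ m : ℕ, m ≠ 0 → m ≤ a ^ (B * (2 * m')) → (m.divisors.card : ℝ) ≤ D)
    (hx : (x : ℝ) ≤ 2 ^ ((B - 1) * (2 * m'))) :
    (((Finset.Ioc 0 x).filter (fun q => 1 / 8 < U a θ B m' q)).card : ℝ) ≤
      8 * (B * (θ ^ m' * (1 + D))) * x := by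
  have h1 := sum_U_le a ha θ hθ B m' x D hD0 hD
  have h2 : (((Finset.Ioc 0 x).filter (fun q => 1 / 8 < U a θ B m' q)).card : ℝ) * (1 / 8) ≤
      ∑ q ∈ Finset.Ioc 0 x, U a θ B m' q := by
    calc (((Finset.Ioc 0 x).filter (fun q => 1 / 8 < U a θ B m' q)).card : ℝ) * (1 / 8)
        = ∑ q ∈ (Finset.Ioc 0 x).filter (fun q => 1 / 8 < U a θ B m' q), (1 / 8 : ℝ) := by
          rw [Finset.sum_const, nsmul_eq_mul]
      _ ≤ ∑ q ∈ (Finset.Ioc 0 x).filter (fun q => 1 / 8 < U a θ B m' q), U a θ B m' q := by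
          apply Finset.sum_le_sum
          intro q hq
          rw [Finset.mem_filter] at hq
          exact hq.2.le
      _ ≤ ∑ q ∈ Finset.Ioc 0 x, U a θ B m' q := by
          apply Finset.sum_le_sum_of_subset_of_nonneg (Finset.filter_subset _ _)
          intro q _ _
          exact U_nonneg a θ hθ.le B m' q
  have h3 : (x : ℝ) / 2 ^ ((B - 1) * (2 * m')) ≤ 1 := by
    rw [div_le_one (by positivity)]
    exact hx
  have h4 : (B : ℝ) * (θ ^ m' * (x * (x / 2 ^ ((B - 1) * (2 * m')) + D))) ≤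
      B * (θ ^ m' * (x * (1 + D))) := by
    apply mul_le_mul_of_nonneg_left _ (by positivity)
    apply mul_le_mul_of_nonneg_left _ (by positivity)
    apply mul_le_mul_of_nonneg_left _ (by positivity)
    linarith
  nlinarith [h1, h2, h4]

end Pool.Agent.Lib.MP_456481_pr
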