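import Mathlib
import Pool.Agent.Lib.MP_456481_pr.Average

namespace Pool.Agent.Lib.MP_456481_pr

open Finset Filter

/-- A modulus is fine if the Fourier sum is small at some time `N ≤ (1+δ) log₂ q`. -/
def Fine (a : ℕ) (δ : ℝ) (q : ℕ) : Prop :=
  ∃ N : ℕ, (N : ℝ) ≤ (1 + δ) * Real.logb 2 q ∧
    ∑ k ∈ Finset.Ico 1 q, F a N ((k : ℝ) / q) ≤ 1 / 4

open Classical in
theorem main (a : ℕ) (ha : 5 ≤ a) (δ ε : ℝ) (hδ : 0 < δ) (hε : 0 < ε) :
    ∃ x0 : ℕ, ∀ x : ℕ, x0 ≤ x →
      (((Finset.Ioc 0 x).filter (fun q => Nat.Coprime q a ∧ ¬ Fine a δ q)).card : ℝ) ≤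
        ε * x := by
  obtain ⟨θ, hθ0, hθ1, hBad⟩ := exists_params a ha
  -- number of blocks
  set A : ℕ := ⌈2 / δ⌉₊ with hA
  have hA0 : 0 < A := Nat.ceil_pos.mpr (by positivity)
  have hA1 : 2 / δ ≤ A := Nat.le_ceil _
  have hAinv : 1 / (A : ℝ) ≤ δ / 2 := by
    rw [div_le_iff₀ hδ] at hA1
    rw [div_le_iff₀ (by positivity)]
    linarith
  set B : ℕ := A + 1 with hB
  have hBpos : 0 < B := Nat.succ_pos _
  have hB1 : B - 1 = A := by omega
  -- square root of θ
  set η : ℝ := Real.sqrt θ with hη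
  have hη0 : 0 < η := Real.sqrt_pos.mpr hθ0
  have hη1 : η < 1 := by rw [hη, Real.sqrt_lt' one_pos]; linarith
  have hηsq : η ^ 2 = θ := Real.sq_sqrt hθ0.le
  -- divisor bound exponent
  have ha' : (5 : ℝ) ≤ a := by exact_mod_cast ha
  have hloga : 0 < Real.log ((a : ℝ) ^ (2 * B)) := by
    apply Real.log_pos
    have : (1 : ℝ) < a := by linarith
    exact one_lt_pow₀ this (by omega)
  have hlogη : 0 < Real.log (1 / η) := Real.log_pos (by rw [lt_div_iff₀ hη0]; linarith)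
  set e2 : ℝ := Real.log (1 / η) / Real.log ((a : ℝ) ^ (2 * B)) with he2
  have he2pos : 0 < e2 := div_pos hlogη hloga
  have he2eq : ((a : ℝ) ^ (2 * B)) ^ e2 = 1 / η := by
    rw [Real.rpow_def_of_pos (by positivity), he2, mul_div_cancel₀ _ hloga.ne',
      Real.exp_log (by positivity)]
  obtain ⟨C, hC1, hC⟩ := divisor_bound e2 he2pos
  -- choice of J
  obtain ⟨J0, hJ0⟩ := exists_pow_lt_of_lt_one (show (0 : ℝ) < ε / 32 by positivity)
    (show (3 / 4 : ℝ) < 1 by norm_num)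
  set J : ℕ := J0 + 1 with hJ
  have hJpos : 0 < J := Nat.succ_pos _
  have hJ1 : 8 * (3 / 4 : ℝ) ^ J ≤ ε / 4 := by
    have : (3 / 4 : ℝ) ^ J ≤ (3 / 4) ^ J0 := pow_le_pow_of_le_one (by norm_num) (by norm_num)
      (Nat.le_succ _)
    linarith
  -- threshold for m'
  obtain ⟨M1, hM1⟩ := exists_pow_lt_of_lt_one
    (show (0 : ℝ) < 1 / 8 / 4 ^ (J + 1) by positivity) (rho_lt_one a (by omega))
  obtain ⟨M2, hM2⟩ := exists_pow_lt_of_lt_one
    (show (0 : ℝ) < ε / 4 / (16 * B * C) by positivity) hη1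
  set h : ℝ := Real.logb 2 (4 / ε) with hh
  -- threshold for X = log₂ x
  set X0 : ℝ := max ((2 * (A + 1) + (1 + δ) * h) / (δ / 2)) (2 * A * (J * M1 + M2 + 1)) with hX0
  have htend : Tendsto (fun x : ℕ => Real.logb 2 (x : ℝ)) atTop atTop :=
    (Real.tendsto_logb_atTop (by norm_num)).comp tendsto_natCast_atTop_atTop
  obtain ⟨x1, hx1⟩ := (Filter.eventually_atTop.mp (htend.eventually_ge_atTop X0))
  refine ⟨max x1 1, ?_⟩
  intro x hx
  have hxx1 : x1 ≤ x := le_trans (le_max_left _ _) hx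
  have hxpos : 0 < x := lt_of_lt_of_le one_pos (le_trans (le_max_right _ _) hx)
  have hxposR : (0 : ℝ) < x := by exact_mod_cast hxpos
  set X : ℝ := Real.logb 2 (x : ℝ) with hX
  have hXX0 : X0 ≤ X := hx1 x hxx1
  have hXa : (2 * (A + 1) + (1 + δ) * h) ≤ δ / 2 * X := by
    have h1 : (2 * ((A : ℝ) + 1) + (1 + δ) * h) / (δ / 2) ≤ X := le_trans (le_max_left _ _) hXX0
    rw [div_le_iff₀ (by positivity)] at h1
    linarith
  have hXb : 2 * (A : ℝ) * (J * M1 + M2 + 1) ≤ X := le_trans (le_max_right _ _) hXX0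
  have hX0' : 0 ≤ X := le_trans (by positivity) hXb
  set m' : ℕ := ⌈X / (2 * A)⌉₊ with hm'
  have hm1 : X / (2 * A) ≤ m' := Nat.le_ceil _
  have hm2 : (m' : ℝ) < X / (2 * A) + 1 := Nat.ceil_lt_add_one (by positivity)
  have hm3 : X ≤ 2 * A * m' := by
    rw [div_le_iff₀ (by positivity)] at hm1
    linarith
  have hm4 : (J * M1 + M2 + 1 : ℝ) ≤ m' := by
    refine le_trans ?_ hm1
    rw [le_div_iff₀ (by positivity)]
    linarith
  have hm5 : J * M1 + M2 + 1 ≤ m' := by exact_mod_cast hm4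
  have hxpow : x ≤ 2 ^ (A * (2 * m')) := by
    have h1 : (x : ℝ) = 2 ^ X := by
      rw [hX, Real.rpow_logb (by norm_num) (by norm_num) hxposR]
    have h2 : (2 : ℝ) ^ X ≤ 2 ^ ((A * (2 * m') : ℕ) : ℝ) := by
      apply Real.rpow_le_rpow_of_exponent_le (by norm_num)
      push_cast
      linarith
    rw [← h1, Real.rpow_natCast] at h2
    exact_mod_cast h2
  -- the bound for the number of divisors
  set D : ℝ := C * (1 / η) ^ m' with hD
  have hD0 : 0 ≤ D := by positivity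
  have hDbound : ∀ m : ℕ, m ≠ 0 → m ≤ a ^ (B * (2 * m')) → (m.divisors.card : ℝ) ≤ D := by
    intro m hm hmle
    refine (hC m hm).trans ?_
    rw [hD]
    apply mul_le_mul_of_nonneg_left _ (by linarith)
    have h1 : (m : ℝ) ≤ ((a : ℝ) ^ (2 * B)) ^ m' := by
      rw [← pow_mul]
      have : B * (2 * m') = 2 * B * m' := by ring
      rw [this] at hmle
      exact_mod_cast hmle
    calc (m : ℝ) ^ e2 ≤ (((a : ℝ) ^ (2 * B)) ^ m') ^ e2 :=
          Real.rpow_le_rpow (by positivity) h1 he2pos.le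
      _ = (((a : ℝ) ^ (2 * B)) ^ e2) ^ m' :=
          (Real.rpow_pow_comm (by positivity) _ _).symm
      _ = (1 / η) ^ m' := by rw [he2eq]
  have hU := card_U_gt_le a ha θ hθ0 B m' x D hD0 hDbound (by
    rw [hB1]
    exact_mod_cast hxpow)
  have hUc : 8 * (B * (θ ^ m' * (1 + D))) ≤ ε / 4 := by
    have h1 : θ ^ m' * (1 + D) ≤ 2 * C * η ^ m' := by
      have h2 : θ ^ m' = η ^ m' * η ^ m' := by
        rw [← hηsq, ← pow_mul, ← pow_add]
        congr 1
        ring
      have h3 : η ^ m' * (1 / η) ^ m' = 1 := by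
        rw [← mul_pow, mul_one_div_cancel hη0.ne', one_pow]
      have h4 : η ^ m' ≤ 1 := pow_le_one₀ hη0.le hη1.le
      have h5 : 0 < η ^ m' := by positivity
      calc θ ^ m' * (1 + D) = η ^ m' * (η ^ m' + C * (η ^ m' * (1 / η) ^ m')) := by
            rw [h2, hD]; ring
        _ = η ^ m' * (η ^ m' + C) := by rw [h3, mul_one]
        _ ≤ η ^ m' * (C + C) := by
            apply mul_le_mul_of_nonneg_left _ h5.le
            linarith
        _ = 2 * C * η ^ m' := by ring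
    have h2 : η ^ m' ≤ ε / 4 / (16 * B * C) := by
      refine le_trans ?_ hM2.le
      apply pow_le_pow_of_le_one hη0.le hη1.le
      omega
    have h3 : (0 : ℝ) < 16 * B * C := by positivity
    rw [le_div_iff₀ h3] at h2
    calc 8 * (B * (θ ^ m' * (1 + D))) ≤ 8 * (B * (2 * C * η ^ m')) := by
          apply mul_le_mul_of_nonneg_left _ (by norm_num)
          apply mul_le_mul_of_nonneg_left h1 (by positivity)
      _ = η ^ m' * (16 * B * C) := by ring
      _ ≤ ε / 4 := h2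
  have hsmall : 4 ^ (J + 1) * rho a ^ (B * (2 * m') / J) ≤ 1 / 8 := by
    have h1 : M1 ≤ B * (2 * m') / J := by
      rw [Nat.le_div_iff_mul_le hJpos]
      have h2 : 1 * (1 * m') ≤ B * (2 * m') :=
        Nat.mul_le_mul hBpos (Nat.mul_le_mul_right _ (by norm_num))
      nlinarith
    have h2 : rho a ^ (B * (2 * m') / J) ≤ 1 / 8 / 4 ^ (J + 1) :=
      le_trans (pow_le_pow_of_le_one (rho_nonneg a) (rho_lt_one a (by omega)).le h1) hM1.le
    rw [le_div_iff₀ (by positivity)] at h2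
    linarith
  have hNle : ((B * (2 * m') : ℕ) : ℝ) ≤ X + δ / 2 * X + 2 * (A + 1) := by
    have h0 : ((B * (2 * m') : ℕ) : ℝ) = ((A : ℝ) + 1) * (2 * m') := by
      rw [hB]
      push_cast
      ring
    rw [h0]
    have h7 : ((A : ℝ) + 1) * (2 * m') ≤ ((A : ℝ) + 1) * (2 * (X / (2 * A) + 1)) := by
      apply mul_le_mul_of_nonneg_left _ (by positivity)
      linarith
    have h8 : ((A : ℝ) + 1) * (2 * (X / (2 * A) + 1)) = X + (1 / A) * X + 2 * (A + 1) := by
      have hA0' : (A : ℝ) ≠ 0 := by exact_mod_cast hA0.ne'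
      field_simp
    have h9 : (1 / (A : ℝ)) * X ≤ δ / 2 * X := mul_le_mul_of_nonneg_right hAinv hX0'
    linarith
  have hE := card_Exc_le a θ hBad J x
  -- covering
  have hcover : (Finset.Ioc 0 x).filter (fun q => Nat.Coprime q a ∧ ¬ Fine a δ q) ⊆
      Finset.Ioc 0 ⌊ε * x / 4⌋₊ ∪ ((Finset.Ioc 0 x).filter (fun q => q ∈ Exc a θ J) ∪
        (Finset.Ioc 0 x).filter (fun q => 1 / 8 < U a θ B m' q)) := by
    intro q hq
    rw [Finset.mem_filter] at hq
    obtain ⟨hqx, hcop, hnf⟩ := hq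
    have hqx' := Finset.mem_Ioc.mp hqx
    by_contra hcon
    rw [Finset.mem_union, Finset.mem_union, Finset.mem_filter, Finset.mem_filter] at hcon
    push Not at hcon
    obtain ⟨h1, h2, h3⟩ := hcon
    have h2' : q ∉ Exc a θ J := h2 hqx
    have h3' : U a θ B m' q ≤ 1 / 8 := h3 hqx
    apply hnf
    have hqposR : (0 : ℝ) < q := by exact_mod_cast hqx'.1
    refine ⟨B * (2 * m'), ?_, ?_⟩
    · have h4 : ε * x / 4 < q := by
        by_contra h5
        push Not at h5
        apply h1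
        rw [Finset.mem_Ioc]
        exact ⟨hqx'.1, Nat.le_floor h5⟩
      have h5 : X - h ≤ Real.logb 2 q := by
        rw [hX, hh, ← Real.logb_div hxposR.ne' (by positivity)]
        apply Real.logb_le_logb_of_le (by norm_num) (by positivity)
        have : (x : ℝ) / (4 / ε) = ε * x / 4 := by field_simp
        rw [this]
        exact h4.le
      have h6 : (1 + δ) * (X - h) ≤ (1 + δ) * Real.logb 2 q :=
        mul_le_mul_of_nonneg_left h5 (by positivity)
      linarith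
    · have hclog : Nat.clog 2 q ≤ B * (2 * m') := by
        apply Nat.clog_le_of_le_pow
        calc q ≤ x := hqx'.2
          _ ≤ 2 ^ (A * (2 * m')) := hxpow
          _ ≤ 2 ^ (B * (2 * m')) := by
            apply Nat.pow_le_pow_right (by norm_num)
            exact Nat.mul_le_mul_right _ (by omega)
      have h4 := sum_F_le a ha θ hθ0 hθ1 J B m' hBpos q hcop h2' hclog
      have h5 : ∑ b ∈ Finset.range B, θ ^ m' * ∑ k ∈ Finset.range q,
        ∏ i ∈ rest (B * (2 * m')) (2 * m') b, g ((a : ℝ) ^ i * ((k : ℝ) / q)) =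
        U a θ B m' q := rfl
      rw [h5] at h4
      linarith
  have hcard := (Finset.card_le_card hcover).trans (Finset.card_union_le _ _)
  have hcard2 := hcard.trans (Nat.add_le_add_left (Finset.card_union_le _ _) _)
  have hcIoc : (Finset.Ioc 0 ⌊ε * x / 4⌋₊).card = ⌊ε * x / 4⌋₊ := by
    rw [Nat.card_Ioc, Nat.sub_zero]
  have hcard3 : (((Finset.Ioc 0 x).filter
      (fun q => Nat.Coprime q a ∧ ¬ Fine a δ q)).card : ℝ) ≤
      (⌊ε * x / 4⌋₊ : ℝ) + ((((Finset.Ioc 0 x).filter (fun q => q ∈ Exc a θ J)).card : ℝ) +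
        (((Finset.Ioc 0 x).filter (fun q => 1 / 8 < U a θ B m' q)).card : ℝ)) := by
    have hcard2' := hcard2
    rw [hcIoc] at hcard2'
    exact_mod_cast hcard2'
  have hfl : (⌊ε * x / 4⌋₊ : ℝ) ≤ ε * x / 4 := Nat.floor_le (by positivity)
  have hE' : 8 * (x : ℝ) * (3 / 4) ^ J ≤ ε / 4 * x := by
    have := mul_le_mul_of_nonneg_right hJ1 hxposR.le
    linarith
  have hU' : 8 * (B * (θ ^ m' * (1 + D))) * x ≤ ε / 4 * x :=
    mul_le_mul_of_nonneg_right hUc hxposR.le
  have hεx : 0 ≤ ε * x := by positivity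
  linarith

end Pool.Agent.Lib.MP_456481_pr
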