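import Mathlib
import Pool.Agent.Lib.MP_456481_pr.Fourier

namespace Pool.Agent.Lib.MP_456481_pr

open Finset MeasureTheory ProbabilityTheory

variable {Ω : Type*}

/-- The random walk `X_0 = 0`, `X_{n+1} = a X_n + b_n`. -/
def walk (a : ℕ) (b : ℕ → Ω → ℕ) : ℕ → Ω → ℕ
  | 0, _ => 0
  | n + 1, ω => a * walk a b n ω + b n ω

/-- Total variation distance between the law of `X_n mod q` and the uniform distribution on the
residues `0, …, q-1`. -/
noncomputable def tvDist [MeasurableSpace Ω] (μ : Measure Ω) (a : ℕ) (b : ℕ → Ω → ℕ)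
    (q n : ℕ) : ℝ :=
  (1 / 2) * ∑ x ∈ Finset.range q, |μ.real {ω | walk a b n ω % q = x} - 1 / q|

/-- The mixing time `t_q = min {n : d_q(n) ≤ 1/4}`. -/
noncomputable def mixTime [MeasurableSpace Ω] (μ : Measure Ω) (a : ℕ) (b : ℕ → Ω → ℕ)
    (q : ℕ) : ℕ :=
  sInf {n : ℕ | tvDist μ a b q n ≤ 1 / 4}

theorem walk_eq (a : ℕ) (b : ℕ → Ω → ℕ) (n : ℕ) (ω : Ω) :
    walk a b n ω = ∑ i ∈ Finset.range n, b i ω * a ^ (n - 1 - i) := by
  induction n with
  | zero => simp [walk]
  | succ n ih =>
    rw [walk, ih, Finset.sum_range_succ, Finset.mul_sum]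
    simp only [Nat.add_sub_cancel, Nat.sub_self, pow_zero, mul_one]
    congr 1
    apply Finset.sum_congr rfl
    intro i hi
    rw [Finset.mem_range] at hi
    have : n - i = (n - 1 - i) + 1 := by omega
    rw [this, pow_succ]
    ring

theorem measurable_walk [MeasurableSpace Ω] (a : ℕ) (b : ℕ → Ω → ℕ)
    (hb : ∀ i, Measurable (b i)) (n : ℕ) : Measurable (walk a b n) := by
  induction n with
  | zero => exact measurable_const
  | succ n ih => exact (ih.const_mul a).add (hb n)

/-- The subsets `T` of `range n` coding the values of the walk in the residue class `x`. -/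
def good (a q n x : ℕ) : Finset (Finset ℕ) :=
  (Finset.range n).powerset.filter (fun T => (∑ i ∈ T, a ^ (n - 1 - i)) % q = x)

/-- the cylinder event -/
def cyl (b : ℕ → Ω → ℕ) (n : ℕ) (T : Finset ℕ) : Set Ω :=
  ⋂ i ∈ Finset.range n, b i ⁻¹' {if i ∈ T then 1 else 0}

theorem walk_on_cyl (a : ℕ) (b : ℕ → Ω → ℕ) (n : ℕ) (T : Finset ℕ)
    (hT : T ∈ (Finset.range n).powerset) (ω : Ω) (hω : ω ∈ cyl b n T) :
    walk a b n ω = ∑ i ∈ T, a ^ (n - 1 - i) := by
  rw [walk_eq]
  rw [Finset.mem_powerset] at hT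
  unfold cyl at hω
  simp only [Set.mem_iInter, Set.mem_preimage, Set.mem_singleton_iff] at hω
  rw [← Finset.sum_subset hT (f := fun i => b i ω * a ^ (n - 1 - i))]
  · apply Finset.sum_congr rfl
    intro i hi
    have := hω i (hT hi)
    rw [if_pos hi] at this
    rw [this, one_mul]
  · intro i hi hiT
    have := hω i hi
    rw [if_neg hiT] at this
    rw [this, zero_mul]

theorem cyl_disjoint {b : ℕ → Ω → ℕ} (n : ℕ) : Set.PairwiseDisjoint
    ((Finset.range n).powerset : Set (Finset ℕ)) (cyl b n) := by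
  intro T hT T' hT' hne
  rw [Function.onFun, Set.disjoint_left]
  intro ω h1 h2
  apply hne
  rw [Finset.mem_coe, Finset.mem_powerset] at hT hT'
  unfold cyl at h1 h2
  simp only [Set.mem_iInter, Set.mem_preimage, Set.mem_singleton_iff] at h1 h2
  ext i
  by_cases hi : i ∈ Finset.range n
  · have e1 := h1 i hi
    have e2 := h2 i hi
    by_cases hiT : i ∈ T <;> by_cases hiT' : i ∈ T' <;> simp_all
  · exact ⟨fun h => absurd (hT h) hi, fun h => absurd (hT' h) hi⟩

variable [MeasurableSpace Ω] {μ : Measure Ω} {b : ℕ → Ω → ℕ}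

theorem measurableSet_cyl (hb : ∀ i, Measurable (b i)) (n : ℕ) (T : Finset ℕ) :
    MeasurableSet (cyl b n T) := by
  unfold cyl
  exact Finset.measurableSet_biInter _ (fun i _ => hb i (measurableSet_singleton _))

theorem measure_cyl (hind : iIndepFun b μ)
    (h0 : ∀ i, μ.real (b i ⁻¹' {0}) = 1 / 2) (h1 : ∀ i, μ.real (b i ⁻¹' {1}) = 1 / 2)
    (n : ℕ) (T : Finset ℕ) : μ.real (cyl b n T) = (1 / 2) ^ n := by
  unfold cyl
  rw [Measure.real, hind.measure_inter_preimage_eq_mul (Finset.range n)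
    (sets := fun i => {if i ∈ T then 1 else 0}) (fun i _ => measurableSet_singleton _),
    ENNReal.toReal_prod]
  have : ∀ i ∈ Finset.range n, (μ (b i ⁻¹' {if i ∈ T then 1 else 0})).toReal = 1 / 2 := by
    intro i _
    split_ifs
    · exact h1 i
    · exact h0 i
  rw [Finset.prod_congr rfl this, Finset.prod_const, Finset.card_range]

variable [IsProbabilityMeasure μ]

theorem law_walk (hb : ∀ i, Measurable (b i)) (hind : iIndepFun b μ)
    (h0 : ∀ i, μ.real (b i ⁻¹' {0}) = 1 / 2) (h1 : ∀ i, μ.real (b i ⁻¹' {1}) = 1 / 2)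
    (a q n x : ℕ) :
    μ.real {ω | walk a b n ω % q = x} = (good a q n x).card / 2 ^ n := by
  classical
  set E : Set Ω := {ω | walk a b n ω % q = x} with hE
  have hEm : MeasurableSet E := by
    have hm := measurable_walk a b hb n
    have h2 : MeasurableSet {m : ℕ | m % q = x} := MeasurableSet.of_discrete
    exact hm h2
  set G := good a q n x with hG
  set Gc := (Finset.range n).powerset \ G with hGc
  have hGsub : G ⊆ (Finset.range n).powerset := Finset.filter_subset _ _
  have lowG : (G.card : ℝ) * (1 / 2) ^ n ≤ μ.real E := by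
    have h2 : (⋃ T ∈ G, cyl b n T) ⊆ E := by
      intro ω hω
      rw [Set.mem_iUnion₂] at hω
      obtain ⟨T, hT, hω⟩ := hω
      rw [hG, good, Finset.mem_filter] at hT
      rw [hE, Set.mem_ofPred_eq, walk_on_cyl a b n T hT.1 ω hω]
      exact hT.2
    have h3 : μ.real (⋃ T ∈ G, cyl b n T) = ∑ T ∈ G, μ.real (cyl b n T) := by
      apply measureReal_biUnion_finset
      · intro T hT T' hT' hne
        exact cyl_disjoint n (by exact_mod_cast hGsub hT) (by exact_mod_cast hGsub hT') hne
      · intro T _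
        exact measurableSet_cyl hb n T
      · intro T _
        exact measure_ne_top _ _
    calc (G.card : ℝ) * (1 / 2) ^ n = ∑ T ∈ G, μ.real (cyl b n T) := by
          rw [Finset.sum_congr rfl (fun T _ => measure_cyl hind h0 h1 n T), Finset.sum_const,
            nsmul_eq_mul]
      _ = μ.real (⋃ T ∈ G, cyl b n T) := h3.symm
      _ ≤ μ.real E := measureReal_mono h2
  have lowGc : (Gc.card : ℝ) * (1 / 2) ^ n ≤ μ.real Eᶜ := by
    have hGcsub : Gc ⊆ (Finset.range n).powerset := Finset.sdiff_subset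
    have h2 : (⋃ T ∈ Gc, cyl b n T) ⊆ Eᶜ := by
      intro ω hω
      rw [Set.mem_iUnion₂] at hω
      obtain ⟨T, hT, hω⟩ := hω
      rw [hGc, Finset.mem_sdiff, hG, good, Finset.mem_filter, not_and] at hT
      intro hωE
      rw [hE, Set.mem_ofPred_eq, walk_on_cyl a b n T hT.1 ω hω] at hωE
      exact hT.2 hT.1 hωE
    have h3 : μ.real (⋃ T ∈ Gc, cyl b n T) = ∑ T ∈ Gc, μ.real (cyl b n T) := by
      apply measureReal_biUnion_finset
      · intro T hT T' hT' hne
        exact cyl_disjoint n (by exact_mod_cast hGcsub hT) (by exact_mod_cast hGcsub hT') hne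
      · intro T _
        exact measurableSet_cyl hb n T
      · intro T _
        exact measure_ne_top _ _
    calc (Gc.card : ℝ) * (1 / 2) ^ n = ∑ T ∈ Gc, μ.real (cyl b n T) := by
          rw [Finset.sum_congr rfl (fun T _ => measure_cyl hind h0 h1 n T), Finset.sum_const,
            nsmul_eq_mul]
      _ = μ.real (⋃ T ∈ Gc, cyl b n T) := h3.symm
      _ ≤ μ.real Eᶜ := measureReal_mono h2
  have hcard : (G.card : ℝ) + Gc.card = 2 ^ n := by
    have h2 : Gc.card + G.card = (Finset.range n).powerset.card := by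
      rw [hGc]
      exact Finset.card_sdiff_add_card_eq_card hGsub
    rw [Finset.card_powerset, Finset.card_range] at h2
    have : ((Gc.card + G.card : ℕ) : ℝ) = ((2 ^ n : ℕ) : ℝ) := by rw [h2]
    push_cast at this
    linarith
  have hcompl : μ.real E + μ.real Eᶜ = 1 := by
    rw [measureReal_add_measureReal_compl hEm]
    simp
  have h2n : (0 : ℝ) < 2 ^ n := by positivity
  have h3 : ((1 / 2 : ℝ)) ^ n = 1 / 2 ^ n := by rw [one_div_pow]
  rw [h3] at lowG lowGc
  have h4 : (G.card : ℝ) * (1 / 2 ^ n) + Gc.card * (1 / 2 ^ n) = 1 := by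
    rw [← add_mul, hcard]
    field_simp
  have h5 : (G.card : ℝ) / 2 ^ n = G.card * (1 / 2 ^ n) := by ring
  rw [h5]
  linarith

theorem sum_good (a q n : ℕ) (hq : 0 < q) :
    ∑ x ∈ Finset.range q, ((good a q n x).card : ℝ) = 2 ^ n := by
  have h1 : ∑ x ∈ Finset.range q, (good a q n x).card = (Finset.range n).powerset.card := by
    unfold good
    rw [← Finset.card_eq_sum_card_fiberwise]
    intro T _
    simp only [Finset.coe_range, Set.mem_Iio]
    exact Nat.mod_lt _ hq
  rw [Finset.card_powerset, Finset.card_range] at h1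
  exact_mod_cast h1

theorem sum_good_sq (a q n : ℕ) (hq : 0 < q) :
    ∑ x ∈ Finset.range q, ((good a q n x).card : ℝ) ^ 2 =
      Col (Finset.range n) (fun i => a ^ (n - 1 - i)) q := by
  have h1 : Col (Finset.range n) (fun i => a ^ (n - 1 - i)) q =
      ∑ x ∈ Finset.range q, (good a q n x).card ^ 2 := by
    unfold Col
    rw [Finset.card_eq_sum_card_fiberwise (t := Finset.range q)
      (f := fun p => (∑ i ∈ p.1, a ^ (n - 1 - i)) % q)]
    · apply Finset.sum_congr rfl
      intro x _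
      rw [sq, ← Finset.card_product]
      congr 1
      ext ⟨T, T'⟩
      simp only [good, Finset.mem_filter, Finset.mem_product]
      constructor
      · rintro ⟨⟨⟨h1, h2⟩, h3⟩, h4⟩
        exact ⟨⟨h1, h4⟩, ⟨h2, h3 ▸ h4⟩⟩
      · rintro ⟨⟨h1, h4⟩, ⟨h2, h5⟩⟩
        exact ⟨⟨⟨h1, h2⟩, h4.trans h5.symm⟩, h4⟩
    · intro p _
      simp only [Finset.coe_range, Set.mem_Iio]
      exact Nat.mod_lt _ hq
  rw [h1]
  push_cast
  rfl

/-- `q Σ P² - 1 = Σ_{0<k<q} F_n(k/q)`. -/
theorem sum_F_eq (a q n : ℕ) (hq : 0 < q) :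
    ∑ k ∈ Finset.Ico 1 q, F a n ((k : ℝ) / q) =
      q * ∑ x ∈ Finset.range q, ((good a q n x).card / 2 ^ n : ℝ) ^ 2 - 1 := by
  have h1 := parseval (Finset.range n) (fun i => a ^ (n - 1 - i)) q hq
  rw [← sum_good_sq a q n hq, Finset.card_range] at h1
  have h2 : ∀ k ∈ Finset.range q,
      ∏ i ∈ Finset.range n, g (((a ^ (n - 1 - i) : ℕ) : ℝ) * ((k : ℝ) / q)) =
        F a n ((k : ℝ) / q) := by
    intro k _
    unfold F
    rw [← Finset.prod_range_reflect]
    apply Finset.prod_congr rfl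
    intro i hi
    congr 2
    push_cast
    congr 1
    rw [Finset.mem_range] at hi
    omega
  rw [Finset.sum_congr rfl h2] at h1
  have h3 : ∑ k ∈ Finset.range q, F a n ((k : ℝ) / q) =
      1 + ∑ k ∈ Finset.Ico 1 q, F a n ((k : ℝ) / q) := by
    rw [Finset.range_eq_Ico, Finset.sum_eq_sum_Ico_succ_bot hq]
    congr 1
    simp [F, g]
  rw [h3] at h1
  have h4 : ∑ x ∈ Finset.range q, ((good a q n x).card / 2 ^ n : ℝ) ^ 2 =
      (∑ x ∈ Finset.range q, ((good a q n x).card : ℝ) ^ 2) / 4 ^ n := by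
    rw [Finset.sum_div]
    apply Finset.sum_congr rfl
    intro x _
    rw [div_pow]
    congr 1
    rw [← pow_mul, mul_comm, pow_mul]
    norm_num
  rw [h4]
  have h5 : (0 : ℝ) < 4 ^ n := by positivity
  field_simp
  linarith

theorem tvDist_le (hb : ∀ i, Measurable (b i)) (hind : iIndepFun b μ)
    (h0 : ∀ i, μ.real (b i ⁻¹' {0}) = 1 / 2) (h1 : ∀ i, μ.real (b i ⁻¹' {1}) = 1 / 2)
    (a q n : ℕ) (hq : 0 < q)
    (hR : ∑ k ∈ Finset.Ico 1 q, F a n ((k : ℝ) / q) ≤ 1 / 4) :
    tvDist μ a b q n ≤ 1 / 4 := by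
  have hq' : (0 : ℝ) < q := by exact_mod_cast hq
  rw [sum_F_eq a q n hq] at hR
  unfold tvDist
  set P : ℕ → ℝ := fun x => (good a q n x).card / 2 ^ n with hP
  have hlaw : ∀ x ∈ Finset.range q,
      |μ.real {ω | walk a b n ω % q = x} - 1 / q| = |P x - 1 / q| := by
    intro x _
    rw [law_walk hb hind h0 h1]
  rw [Finset.sum_congr rfl hlaw]
  have hsum : ∑ x ∈ Finset.range q, P x = 1 := by
    rw [hP]
    simp only
    rw [← Finset.sum_div, sum_good a q n hq]
    field_simp
  have hcs : (∑ x ∈ Finset.range q, |P x - 1 / q|) ^ 2 ≤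
      q * ∑ x ∈ Finset.range q, |P x - 1 / q| ^ 2 := by
    have := sq_sum_le_card_mul_sum_sq (s := Finset.range q) (f := fun x => |P x - 1 / q|)
    rwa [Finset.card_range] at this
  have hexp : ∑ x ∈ Finset.range q, |P x - 1 / q| ^ 2 =
      ∑ x ∈ Finset.range q, P x ^ 2 - 1 / q := by
    have h2 : ∀ x ∈ Finset.range q, |P x - 1 / q| ^ 2 = P x ^ 2 - (2 / q) * P x + 1 / q ^ 2 := by
      intro x _
      rw [sq_abs]
      ring
    rw [Finset.sum_congr rfl h2, Finset.sum_add_distrib, Finset.sum_sub_distrib,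
      ← Finset.mul_sum, hsum, Finset.sum_const, Finset.card_range, nsmul_eq_mul]
    field_simp
    ring
  rw [hexp] at hcs
  have h3 : (∑ x ∈ Finset.range q, |P x - 1 / q|) ^ 2 ≤ (1 / 2) ^ 2 := by
    calc _ ≤ _ := hcs
      _ = q * ∑ x ∈ Finset.range q, P x ^ 2 - 1 := by
        rw [mul_sub]
        congr 1
        field_simp
      _ ≤ 1 / 4 := hR
      _ = _ := by norm_num
  have h4 := abs_le_of_sq_le_sq' h3 (by norm_num)
  linarith [h4.2]

theorem one_sub_le_tvDist (hb : ∀ i, Measurable (b i)) (hind : iIndepFun b μ)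
    (h0 : ∀ i, μ.real (b i ⁻¹' {0}) = 1 / 2) (h1 : ∀ i, μ.real (b i ⁻¹' {1}) = 1 / 2)
    (a q n : ℕ) (hq : 0 < q) :
    1 - 2 ^ n / q ≤ tvDist μ a b q n := by
  have hq' : (0 : ℝ) < q := by exact_mod_cast hq
  unfold tvDist
  set P : ℕ → ℝ := fun x => (good a q n x).card / 2 ^ n with hP
  have hlaw : ∀ x ∈ Finset.range q,
      |μ.real {ω | walk a b n ω % q = x} - 1 / q| = |P x - 1 / q| := by
    intro x _
    rw [law_walk hb hind h0 h1]
  rw [Finset.sum_congr rfl hlaw]
  have hsum : ∑ x ∈ Finset.range q, P x = 1 := by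
    rw [hP]
    simp only
    rw [← Finset.sum_div, sum_good a q n hq]
    field_simp
  -- the residues that are hit
  set A := (Finset.range q).filter (fun x => (good a q n x).Nonempty) with hA
  have hAcard : (A.card : ℝ) ≤ 2 ^ n := by
    have h2 : A ⊆ (Finset.range n).powerset.image (fun T => (∑ i ∈ T, a ^ (n - 1 - i)) % q) := by
      intro x hx
      rw [hA, Finset.mem_filter] at hx
      obtain ⟨T, hT⟩ := hx.2
      rw [good, Finset.mem_filter] at hT
      rw [Finset.mem_image]
      exact ⟨T, hT.1, hT.2⟩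
    have h3 := (Finset.card_le_card h2).trans Finset.card_image_le
    rw [Finset.card_powerset, Finset.card_range] at h3
    exact_mod_cast h3
  have hPnonneg : ∀ x, 0 ≤ P x := fun x => by rw [hP]; positivity
  have hbound : ∀ x ∈ Finset.range q, P x - 1 / q + (if x ∈ A then 0 else 2 / (q : ℝ)) ≤
      |P x - 1 / q| := by
    intro x hx
    split_ifs with h
    · rw [add_zero]; exact le_abs_self _
    · have h2 : P x = 0 := by
        rw [hP]
        simp only
        have h3 : good a q n x = ∅ := by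
          by_contra h4
          apply h
          rw [hA, Finset.mem_filter]
          exact ⟨hx, Finset.nonempty_iff_ne_empty.mpr h4⟩
        rw [h3]
        simp
      rw [h2, zero_sub, abs_neg, abs_of_pos (by positivity)]
      have : -(1 / (q : ℝ)) + 2 / q = 1 / q := by ring
      rw [this]
  have h2 := Finset.sum_le_sum hbound
  rw [Finset.sum_add_distrib, Finset.sum_sub_distrib, hsum, Finset.sum_const, Finset.card_range,
    nsmul_eq_mul] at h2
  have h3 : ∑ x ∈ Finset.range q, (if x ∈ A then (0 : ℝ) else 2 / q) =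
      ((q : ℝ) - A.card) * (2 / q) := by
    rw [Finset.sum_ite, Finset.sum_const_zero, zero_add, Finset.sum_const, nsmul_eq_mul]
    congr 1
    have h4 : (Finset.range q).filter (fun x => x ∉ A) = Finset.range q \ A := by
      ext x; simp
    rw [h4]
    have h5 : (Finset.range q \ A).card + A.card = (Finset.range q).card :=
      Finset.card_sdiff_add_card_eq_card (Finset.filter_subset _ _)
    rw [Finset.card_range] at h5
    have h6 : (((Finset.range q \ A).card + A.card : ℕ) : ℝ) = (q : ℝ) := by rw [h5]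
    push_cast at h6
    linarith
  rw [h3] at h2
  have h4 : (q : ℝ) * (1 / q) = 1 := by field_simp
  rw [h4] at h2
  have h5 : ((q : ℝ) - A.card) * (2 / q) = 2 - 2 * (A.card / q) := by
    field_simp
  rw [h5] at h2
  have h6 : (A.card : ℝ) / q ≤ 2 ^ n / q := div_le_div_of_nonneg_right hAcard hq'.le
  linarith

end Pool.Agent.Lib.MP_456481_pr
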