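import Mathlib
import Pool.Agent.Lib.MP_456481_pr.Main
import Pool.Agent.Lib.MP_456481_pr.Walk

namespace Pool.Agent.Lib.MP_456481_pr

open Finset Filter MeasureTheory ProbabilityTheory

/-- Crude mixing for every modulus: the set of admissible times is not empty. -/
theorem exists_sum_F_le (a : ℕ) (ha : 5 ≤ a) (q : ℕ) (hcop : Nat.Coprime q a) :
    ∃ n : ℕ, ∑ k ∈ Finset.Ico 1 q, F a n ((k : ℝ) / q) ≤ 1 / 4 := by
  set J := Nat.clog 2 q + 1 with hJ
  have hJpos : 0 < J := Nat.succ_pos _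
  obtain ⟨M, hM⟩ := exists_pow_lt_of_lt_one
    (show (0 : ℝ) < 1 / 4 / (q + 1) by positivity) (rho_lt_one a (by omega))
  refine ⟨J * M, ?_⟩
  have h1 : ∀ k ∈ Finset.Ico 1 q, F a (J * M) ((k : ℝ) / q) ≤ 1 / 4 / (q + 1) := by
    intro k hk
    rw [Finset.mem_Ico] at hk
    have hq : 0 < q := by omega
    have h2 := F_le_of_small_den a (by omega) J q hq (by
      calc q ≤ 2 ^ Nat.clog 2 q := Nat.le_pow_clog (by norm_num) q
        _ ≤ 2 ^ J := Nat.pow_le_pow_right (by norm_num) (by omega)) hcop.symm (k : ℤ) (by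
      intro hdvd
      have h3 := Int.natCast_dvd_natCast.mp hdvd
      have h4 := Nat.le_of_dvd (by omega) h3
      omega) (J * M)
    rw [Nat.mul_div_cancel_left M hJpos] at h2
    push_cast at h2
    exact h2.trans hM.le
  calc ∑ k ∈ Finset.Ico 1 q, F a (J * M) ((k : ℝ) / q)
      ≤ ∑ k ∈ Finset.Ico 1 q, (1 / 4 / (q + 1) : ℝ) := Finset.sum_le_sum h1
    _ = ((q - 1 : ℕ) : ℝ) * (1 / 4 / (q + 1)) := by
        rw [Finset.sum_const, Nat.card_Ico, nsmul_eq_mul]
    _ ≤ (q + 1) * (1 / 4 / (q + 1)) := by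
        apply mul_le_mul_of_nonneg_right _ (by positivity)
        have : ((q - 1 : ℕ) : ℝ) ≤ q := by exact_mod_cast Nat.sub_le q 1
        linarith
    _ = 1 / 4 := by field_simp

variable {Ω : Type*} [MeasurableSpace Ω] {μ : Measure Ω} [IsProbabilityMeasure μ]
  {b : ℕ → Ω → ℕ}

theorem exists_tvDist_le (a : ℕ) (ha : 5 ≤ a) (hb : ∀ i, Measurable (b i))
    (hind : iIndepFun b μ)
    (h0 : ∀ i, μ.real (b i ⁻¹' {0}) = 1 / 2) (h1 : ∀ i, μ.real (b i ⁻¹' {1}) = 1 / 2)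
    (q : ℕ) (hq : 0 < q) (hcop : Nat.Coprime q a) :
    ∃ n : ℕ, tvDist μ a b q n ≤ 1 / 4 := by
  obtain ⟨n, hn⟩ := exists_sum_F_le a ha q hcop
  exact ⟨n, tvDist_le hb hind h0 h1 a q n hq hn⟩

theorem mixTime_le (a : ℕ) (hb : ∀ i, Measurable (b i))
    (hind : iIndepFun b μ)
    (h0 : ∀ i, μ.real (b i ⁻¹' {0}) = 1 / 2) (h1 : ∀ i, μ.real (b i ⁻¹' {1}) = 1 / 2)
    (δ : ℝ) (q : ℕ) (hq : 0 < q) (hf : Fine a δ q) :
    (mixTime μ a b q : ℝ) ≤ (1 + δ) * Real.logb 2 q := by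
  obtain ⟨N, hN, hs⟩ := hf
  have h2 := tvDist_le hb hind h0 h1 a q N hq hs
  have h3 : mixTime μ a b q ≤ N := Nat.sInf_le h2
  have h4 : (mixTime μ a b q : ℝ) ≤ N := by exact_mod_cast h3
  exact h4.trans hN

theorem le_mixTime (a : ℕ) (ha : 5 ≤ a) (hb : ∀ i, Measurable (b i))
    (hind : iIndepFun b μ)
    (h0 : ∀ i, μ.real (b i ⁻¹' {0}) = 1 / 2) (h1 : ∀ i, μ.real (b i ⁻¹' {1}) = 1 / 2)
    (q : ℕ) (hq : 0 < q) (hcop : Nat.Coprime q a) :
    Real.logb 2 q - 1 ≤ (mixTime μ a b q : ℝ) := by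
  have h2 : tvDist μ a b q (mixTime μ a b q) ≤ 1 / 4 :=
    Nat.sInf_mem (s := {n : ℕ | tvDist μ a b q n ≤ 1 / 4})
      (exists_tvDist_le a ha hb hind h0 h1 q hq hcop)
  have h3 := one_sub_le_tvDist hb hind h0 h1 a q (mixTime μ a b q) hq
  set T := mixTime μ a b q with hT
  have hq' : (0 : ℝ) < q := by exact_mod_cast hq
  have h4 : (3 / 4 : ℝ) ≤ 2 ^ T / q := by linarith
  rw [le_div_iff₀ hq'] at h4
  have h5 : (q : ℝ) / 2 ≤ 2 ^ T := by linarith
  have h6 : Real.logb 2 ((q : ℝ) / 2) ≤ Real.logb 2 ((2 : ℝ) ^ T) :=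
    Real.logb_le_logb_of_le (by norm_num) (by positivity) h5
  rw [Real.logb_div hq'.ne' (by norm_num), Real.logb_self_eq_one (by norm_num),
    Real.logb_pow, Real.logb_self_eq_one (by norm_num), mul_one] at h6
  exact h6

open Classical in
theorem final_count (a : ℕ) (ha : 5 ≤ a) (hb : ∀ i, Measurable (b i))
    (hind : iIndepFun b μ)
    (h0 : ∀ i, μ.real (b i ⁻¹' {0}) = 1 / 2) (h1 : ∀ i, μ.real (b i ⁻¹' {1}) = 1 / 2)
    (δ ε : ℝ) (hδ : 0 < δ) (hε : 0 < ε) :
    ∀ᶠ x : ℕ in atTop,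
      (((Finset.Icc 2 x).filter (fun q => Nat.Coprime q a ∧
        δ < |(mixTime μ a b q : ℝ) / Real.logb 2 q - 1|)).card : ℝ) ≤ ε * x := by
  obtain ⟨x0, hx0⟩ := main a ha δ (ε / 2) hδ (by positivity)
  -- small moduli: log₂ q < 1/δ
  have htend : Tendsto (fun q : ℕ => Real.logb 2 (q : ℝ)) atTop atTop :=
    (Real.tendsto_logb_atTop (by norm_num)).comp tendsto_natCast_atTop_atTop
  obtain ⟨q1, hq1⟩ := (Filter.eventually_atTop.mp (htend.eventually_ge_atTop (1 / δ)))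
  have hlarge : ∀ᶠ x : ℕ in atTop, (q1 : ℝ) ≤ ε / 2 * x := by
    have : Tendsto (fun x : ℕ => ε / 2 * (x : ℝ)) atTop atTop :=
      Tendsto.const_mul_atTop (by positivity) tendsto_natCast_atTop_atTop
    exact this.eventually_ge_atTop _
  filter_upwards [hlarge, Filter.eventually_ge_atTop x0] with x hx1 hx2
  have hcover : (Finset.Icc 2 x).filter (fun q => Nat.Coprime q a ∧
        δ < |(mixTime μ a b q : ℝ) / Real.logb 2 q - 1|) ⊆
      Finset.range q1 ∪ (Finset.Ioc 0 x).filter (fun q => Nat.Coprime q a ∧ ¬ Fine a δ q) := by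
    intro q hq
    rw [Finset.mem_filter, Finset.mem_Icc] at hq
    obtain ⟨⟨hq2, hqx⟩, hcop, hgap⟩ := hq
    rw [Finset.mem_union, Finset.mem_range, Finset.mem_filter, Finset.mem_Ioc]
    by_contra hcon
    push Not at hcon
    obtain ⟨h2, h3⟩ := hcon
    have hfine : Fine a δ q := h3 ⟨by omega, hqx⟩ hcop
    have hlog := hq1 q h2
    have hqpos : 0 < q := by omega
    have hlogpos : 0 < Real.logb 2 (q : ℝ) := lt_of_lt_of_le (by positivity) hlog
    have h4 := mixTime_le a hb hind h0 h1 δ q hqpos hfine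
    have h5 := le_mixTime a ha hb hind h0 h1 q hqpos hcop
    have h6 : |(mixTime μ a b q : ℝ) / Real.logb 2 q - 1| ≤ δ := by
      rw [abs_le]
      constructor
      · have h7 : 1 - δ ≤ (mixTime μ a b q : ℝ) / Real.logb 2 q := by
          rw [le_div_iff₀ hlogpos]
          rw [div_le_iff₀ hδ] at hlog
          nlinarith
        linarith
      · have h7 : (mixTime μ a b q : ℝ) / Real.logb 2 q ≤ 1 + δ := by
          rw [div_le_iff₀ hlogpos]
          exact h4
        linarith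
    linarith
  have hcard := (Finset.card_le_card hcover).trans (Finset.card_union_le _ _)
  rw [Finset.card_range] at hcard
  have hcard' : (((Finset.Icc 2 x).filter (fun q => Nat.Coprime q a ∧
        δ < |(mixTime μ a b q : ℝ) / Real.logb 2 q - 1|)).card : ℝ) ≤
      (q1 : ℝ) + (((Finset.Ioc 0 x).filter
        (fun q => Nat.Coprime q a ∧ ¬ Fine a δ q)).card : ℝ) := by
    exact_mod_cast hcard
  have h2 := hx0 x hx2
  linarith

/-- Positive density of the integers coprime to `a`. -/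
theorem card_coprime_ge (a : ℕ) (ha : 2 ≤ a) (x : ℕ) (hx : 4 * a ≤ x) :
    (x : ℝ) / (2 * a) ≤ (((Finset.Icc 2 x).filter (fun q => Nat.Coprime q a)).card : ℝ) := by
  have hinj : ((Finset.Ioc 0 ((x - 1) / a)).card) ≤
      ((Finset.Icc 2 x).filter (fun q => Nat.Coprime q a)).card := by
    apply Finset.card_le_card_of_injOn (fun i => a * i + 1)
    · intro i hi
      rw [Finset.mem_coe, Finset.mem_Ioc] at hi
      rw [Finset.mem_coe, Finset.mem_filter, Finset.mem_Icc]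
      show (2 ≤ a * i + 1 ∧ a * i + 1 ≤ x) ∧ Nat.Coprime (a * i + 1) a
      have h1 : a * i ≤ a * ((x - 1) / a) := Nat.mul_le_mul_left a hi.2
      have h2 : a * ((x - 1) / a) ≤ x - 1 := Nat.mul_div_le _ _
      have h3 : a * 1 ≤ a * i := Nat.mul_le_mul_left a hi.1
      refine ⟨⟨by omega, by omega⟩, ?_⟩
      rw [mul_comm a i]
      simp
    · intro i _ j _ hij
      simp only [Nat.add_right_cancel_iff] at hij
      exact Nat.eq_of_mul_eq_mul_left (by omega) hij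
  rw [Nat.card_Ioc, Nat.sub_zero] at hinj
  have h1 : ((x - 1) / a : ℕ) ≤ (((Finset.Icc 2 x).filter
    (fun q => Nat.Coprime q a)).card : ℝ) := by exact_mod_cast hinj
  refine le_trans ?_ h1
  have ha' : (0 : ℝ) < a := by exact_mod_cast (by omega : 0 < a)
  have h2 : x - 1 < a * ((x - 1) / a) + a := by
    have := Nat.div_add_mod (x - 1) a
    have := Nat.mod_lt (x - 1) (show 0 < a by omega)
    omega
  have h3 : x ≤ a * ((x - 1) / a) + a := by omega
  have h4 : (x : ℝ) ≤ a * (((x - 1) / a : ℕ) : ℝ) + a := by exact_mod_cast h3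
  have h5 : (4 : ℝ) * a ≤ x := by exact_mod_cast hx
  rw [div_le_iff₀ (by positivity)]
  nlinarith

open Classical in
theorem final (a : ℕ) (ha : 5 ≤ a) (hb : ∀ i, Measurable (b i))
    (hind : iIndepFun b μ)
    (h0 : ∀ i, μ.real (b i ⁻¹' {0}) = 1 / 2) (h1 : ∀ i, μ.real (b i ⁻¹' {1}) = 1 / 2)
    (δ : ℝ) (hδ : 0 < δ) :
    (fun x : ℕ => (((Finset.Icc 2 x).filter (fun q => Nat.Coprime q a ∧
        δ < |(mixTime μ a b q : ℝ) / Real.logb 2 q - 1|)).card : ℝ)) =o[atTop]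
      (fun x : ℕ => (((Finset.Icc 2 x).filter (fun q => Nat.Coprime q a)).card : ℝ)) := by
  rw [Asymptotics.isLittleO_iff]
  intro c hc
  have ha' : (0 : ℝ) < a := by exact_mod_cast (by omega : 0 < a)
  filter_upwards [final_count a ha hb hind h0 h1 δ (c / (2 * a)) hδ (by positivity),
    Filter.eventually_ge_atTop (4 * a)] with x hx1 hx2
  have h2 := card_coprime_ge a (by omega) x hx2
  rw [Real.norm_of_nonneg (by positivity), Real.norm_of_nonneg (by positivity)]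
  calc _ ≤ c / (2 * a) * x := hx1
    _ = c * (x / (2 * a)) := by ring
    _ ≤ _ := mul_le_mul_of_nonneg_left h2 hc.le

end Pool.Agent.Lib.MP_456481_pr
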